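import Mathlib

set_option autoImplicit false

namespace Pool.Agent.Helper75.LatinA

open Equiv Finset

section Defs

variable {α : Type*}

/-- A family of permutations `T k` is Latin when `k ↦ T k i` is injective for each `i`. -/
def Lat (T : α → Perm α) : Prop := ∀ i, Function.Injective (fun k => T k i)

/-- Reducedness of the symbol family at the point `o`. -/
def Red (o : α) (T : α → Perm α) : Prop := (∀ k, T k o = k) ∧ (∀ k, T k k = o)

end Defs

section Sums

variable {α : Type*} [Fintype α] [DecidableEq α]

open Classical in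
/-- Signed count of Latin families. -/
noncomputable def latSum (α : Type*) [Fintype α] [DecidableEq α] : ℤ :=
  ∑ T ∈ (univ : Finset (α → Perm α)).filter (fun T => Lat T),
    ∏ k, ((Perm.sign (T k) : ℤˣ) : ℤ)

open Classical in
/-- Signed count of Latin families with `T k o = k`. -/
noncomputable def normSum (o : α) : ℤ :=
  ∑ T ∈ (univ : Finset (α → Perm α)).filter (fun T => Lat T ∧ ∀ k, T k o = k),
    ∏ k, ((Perm.sign (T k) : ℤˣ) : ℤ)

open Classical in
/-- Signed count of reduced Latin families. -/
noncomputable def redSum (o : α) : ℤ :=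
  ∑ T ∈ (univ : Finset (α → Perm α)).filter (fun T => Lat T ∧ Red o T),
    ∏ k, ((Perm.sign (T k) : ℤˣ) : ℤ)

lemma Lat.bij {T : α → Perm α} (h : Lat T) (i : α) : Function.Bijective (fun k => T k i) :=
  Finite.injective_iff_bijective.mp (h i)

omit [Fintype α] [DecidableEq α] in
lemma Lat.symm_inj {T : α → Perm α} (h : Lat T) (j : α) :
    Function.Injective (fun k => (T k).symm j) := by
  intro k k' hk
  simp only at hk
  have h1 : T k ((T k).symm j) = j := by simp
  have h2 : T k' ((T k').symm j) = j := by simp
  apply h ((T k).symm j)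
  simp only
  rw [h1, hk, h2]

lemma Lat.symm_bij {T : α → Perm α} (h : Lat T) (j : α) :
    Function.Bijective (fun k => (T k).symm j) :=
  Finite.injective_iff_bijective.mp (h.symm_inj j)

open Classical in
/-- First normalisation. -/
lemma latSum_eq (o : α) : latSum α = (Fintype.card α).factorial * normSum o := by
  unfold latSum normSum
  have key : ∀ ρ : Perm α, 
      (∑ T ∈ (univ : Finset (α → Perm α)).filter (fun T => Lat T ∧ ∀ k, T k o = ρ k),
        ∏ k, ((Perm.sign (T k) : ℤˣ) : ℤ)) = 
      ∑ T ∈ (univ : Finset (α → Perm α)).filter (fun T => Lat T ∧ ∀ k, T k o = k),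
        ∏ k, ((Perm.sign (T k) : ℤˣ) : ℤ) := by
    intro ρ
    refine Finset.sum_bij' (fun T _ => fun k => T (ρ.symm k)) (fun T _ => fun k => T (ρ k))
      ?_ ?_ ?_ ?_ ?_
    · intro T hT
      simp only [mem_filter, mem_univ, true_and] at hT ⊢
      refine ⟨?_, ?_⟩
      · intro i k k' hk
        exact ρ.symm.injective (hT.1 i hk)
      · intro k
        rw [hT.2]; simp
    · intro T hT
      simp only [mem_filter, mem_univ, true_and] at hT ⊢
      refine ⟨?_, ?_⟩
      · intro i k k' hk
        exact ρ.injective (hT.1 i hk)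
      · intro k
        rw [hT.2]
    · intro T _; funext k; simp
    · intro T _; funext k; simp
    · intro T _
      exact (Equiv.prod_comp ρ.symm (fun k => ((Perm.sign (T k) : ℤˣ) : ℤ))).symm
  have h2 : ∑ T ∈ (univ : Finset (α → Perm α)).filter (fun T => Lat T),
      ∏ k, ((Perm.sign (T k) : ℤˣ) : ℤ) = 
      ∑ ρ : Perm α, ∑ T ∈ (univ : Finset (α → Perm α)).filter (fun T => Lat T ∧ ∀ k, T k o = ρ k),
        ∏ k, ((Perm.sign (T k) : ℤˣ) : ℤ) := by
    have : ∀ ρ : Perm α, (univ : Finset (α → Perm α)).filter (fun T => Lat T ∧ ∀ k, T k o = ρ k)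
        = ((univ : Finset (α → Perm α)).filter (fun T => Lat T)).filter (fun T => ∀ k, T k o = ρ k) := by
      intro ρ; ext T; simp
    simp_rw [this]
    simp_rw [Finset.sum_filter (fun T : α → Perm α => ∀ k, T k o = _)]
    rw [Finset.sum_comm]
    refine Finset.sum_congr rfl ?_
    intro T hT
    simp only [mem_filter, mem_univ, true_and] at hT
    have hb := hT.bij o
    rw [Finset.sum_eq_single (Equiv.ofBijective _ hb)]
    · simp
    · intro ρ _ hρ
      rw [if_neg]
      intro h
      apply hρ
      ext k
      simp [h k]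
    · simp
  rw [h2]
  simp_rw [key]
  rw [Finset.sum_const, Finset.card_univ, Fintype.card_perm, nsmul_eq_mul]

lemma card_fix (o : α) :
    (univ.filter (fun τ : Perm α => τ o = o)).card = (Fintype.card α - 1).factorial := by
  classical
  have e := Equiv.Perm.subtypeEquivSubtypePerm (fun a : α => a ≠ o)
  have h1 : Fintype.card (Perm {a : α // a ≠ o}) = 
      Fintype.card {f : Perm α // ∀ a, ¬ (a ≠ o) → f a = a} := Fintype.card_congr e
  rw [Fintype.card_perm] at h1
  have h2 : Fintype.card {a : α // a ≠ o} = Fintype.card α - 1 := by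
    have := Fintype.card_subtype_compl (fun a : α => a = o)
    simp only [Fintype.card_unique] at this
    exact this
  rw [h2] at h1
  rw [h1, Fintype.card_subtype]
  congr 1
  ext τ
  simp

open Classical in
/-- Second normalisation, for even order. -/
lemma normSum_eq (o : α) (hev : Even (Fintype.card α)) : 
    normSum o = (Fintype.card α - 1).factorial * redSum o := by
  unfold normSum redSum
  have key : ∀ τ ∈ univ.filter (fun τ : Perm α => τ o = o), 
      (∑ T ∈ (univ : Finset (α → Perm α)).filter 
          (fun T => (Lat T ∧ ∀ k, T k o = k) ∧ ∀ k, (T k).symm o = τ k),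
        ∏ k, ((Perm.sign (T k) : ℤˣ) : ℤ)) = 
      ∑ T ∈ (univ : Finset (α → Perm α)).filter (fun T => Lat T ∧ Red o T),
        ∏ k, ((Perm.sign (T k) : ℤˣ) : ℤ) := by
    intro τ hτ
    simp only [mem_filter, mem_univ, true_and] at hτ
    have hτ' : τ.symm o = o := by rw [Equiv.symm_apply_eq, hτ]
    refine Finset.sum_bij' (fun T _ => fun k => T k * τ) (fun T _ => fun k => T k * τ⁻¹)
      ?_ ?_ ?_ ?_ ?_
    · intro T hT
      simp only [mem_filter, mem_univ, true_and] at hT ⊢
      obtain ⟨⟨h1, h2⟩, h3⟩ := hT
      refine ⟨?_, ?_, ?_⟩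
      · intro i k k' hk
        exact h1 (τ i) hk
      · intro k
        simp [hτ, h2]
      · intro k
        simp [← h3]
    · intro T hT
      simp only [mem_filter, mem_univ, true_and] at hT ⊢
      obtain ⟨h1, h2, h3⟩ := hT
      refine ⟨⟨?_, ?_⟩, ?_⟩
      · intro i k k' hk
        exact h1 (τ⁻¹ i) hk
      · intro k
        simp [hτ', h2]
      · intro k
        rw [Equiv.symm_apply_eq]
        simp [h3]
    · intro T _; funext k; simp
    · intro T _; funext k; simp
    · intro T _
      simp only [Perm.sign_mul, Units.val_mul]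
      rw [Finset.prod_mul_distrib, Finset.prod_const, Finset.card_univ]
      obtain ⟨r, hr⟩ := hev
      rw [hr, ← two_mul, pow_mul, ← Units.val_pow_eq_pow_val, Int.units_sq]
      simp
  have h2 : ∑ T ∈ (univ : Finset (α → Perm α)).filter (fun T => Lat T ∧ ∀ k, T k o = k),
      ∏ k, ((Perm.sign (T k) : ℤˣ) : ℤ) = 
      ∑ τ ∈ univ.filter (fun τ : Perm α => τ o = o), 
        ∑ T ∈ (univ : Finset (α → Perm α)).filter 
          (fun T => (Lat T ∧ ∀ k, T k o = k) ∧ ∀ k, (T k).symm o = τ k),
        ∏ k, ((Perm.sign (T k) : ℤˣ) : ℤ) := by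
    have : ∀ τ : Perm α, (univ : Finset (α → Perm α)).filter 
          (fun T => (Lat T ∧ ∀ k, T k o = k) ∧ ∀ k, (T k).symm o = τ k)
        = ((univ : Finset (α → Perm α)).filter (fun T => Lat T ∧ ∀ k, T k o = k)).filter 
            (fun T => ∀ k, (T k).symm o = τ k) := by
      intro ρ; ext T; simp
    simp_rw [this]
    simp_rw [Finset.sum_filter (fun T : α → Perm α => ∀ k, (T k).symm o = _)]
    rw [Finset.sum_comm]
    refine Finset.sum_congr rfl ?_
    intro T hT
    simp only [mem_filter, mem_univ, true_and] at hT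
    have hb := hT.1.symm_bij o
    have hoo : (T o).symm o = o := by rw [Equiv.symm_apply_eq, hT.2]
    rw [Finset.sum_eq_single (Equiv.ofBijective _ hb)]
    · simp
    · intro ρ _ hρ
      rw [if_neg]
      intro h
      apply hρ
      ext k
      simp [h k]
    · intro h
      exfalso; apply h
      simp [hoo]
  rw [h2, Finset.sum_congr rfl key, Finset.sum_const, card_fix, nsmul_eq_mul]

end Sums

section Pairs

variable {α : Type*} [Fintype α] [DecidableEq α]

/-- From rows and columns to the symbol family. -/
def symb (R C : α → Perm α) (h : ∀ i j, R i j = C j i) : α → Perm α := fun k =>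
  ⟨fun j => (C j).symm k, fun i => (R i).symm k,
    fun j => by
      rw [Equiv.symm_apply_eq, h]; simp,
    fun i => by
      rw [Equiv.symm_apply_eq, ← h]; simp⟩

omit [Fintype α] [DecidableEq α] in
lemma symb_lat (R C : α → Perm α) (h : ∀ i j, R i j = C j i) : Lat (symb R C h) := by
  intro j k k' hk
  exact (C j).symm.injective hk

/-- Sign of the coordinate swap. -/
def epsSw (α : Type*) [Fintype α] [DecidableEq α] : ℤˣ :=
  Perm.sign (Equiv.prodComm α α : Perm (α × α))

lemma sign_rel (R C : α → Perm α) (h : ∀ i j, R i j = C j i) :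
    (∏ i, Perm.sign (R i)) * (∏ j, Perm.sign (C j)) =
      epsSw α * ∏ k, Perm.sign (symb R C h k) := by
  rw [← Perm.sign_prodCongrRight R, ← Perm.sign_prodCongrRight C,
    ← Perm.sign_prodCongrRight (symb R C h)]
  unfold epsSw
  set sw : Perm (α × α) := Equiv.prodComm α α with hsw
  set A : Perm (α × α) := prodCongrRight R
  set B : Perm (α × α) := prodCongrRight C
  set D : Perm (α × α) := prodCongrRight (symb R C h)
  have hrel : sw * A = D * sw * B * sw := by
    ext1 ⟨i, j⟩
    simp only [Perm.mul_apply]
    simp only [A, B, D, sw, Equiv.prodComm_apply, Prod.swap_prod_mk, prodCongrRight_apply,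
      symb, Equiv.coe_fn_mk]
    rw [h i j]
    simp
  have hs := congrArg Perm.sign hrel
  simp only [Perm.sign_mul] at hs
  have h1 : Perm.sign sw * Perm.sign sw = 1 := Int.units_mul_self _
  have h2 : Perm.sign B * Perm.sign B = 1 := Int.units_mul_self _
  calc Perm.sign A * Perm.sign B = (Perm.sign sw * Perm.sign sw) * (Perm.sign A * Perm.sign B) := by
        rw [h1, one_mul]
    _ = Perm.sign sw * (Perm.sign sw * Perm.sign A) * Perm.sign B := by
        simp only [mul_assoc]
    _ = Perm.sign sw * (Perm.sign D * Perm.sign sw * Perm.sign B * Perm.sign sw) * Perm.sign B := by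
        rw [hs]
    _ = Perm.sign sw * Perm.sign D * (Perm.sign sw * Perm.sign sw) * (Perm.sign B * Perm.sign B) := by
        simp only [mul_assoc, mul_comm, mul_left_comm]
    _ = Perm.sign sw * Perm.sign D := by rw [h1, h2, mul_one, mul_one]

/-- Rows from a Latin family. -/
noncomputable def rowsOf (T : α → Perm α) (h : Lat T) : α → Perm α := fun i =>
  (Equiv.ofBijective _ (h.symm_bij i)).symm

/-- Columns from a Latin family. -/
noncomputable def colsOf (T : α → Perm α) (h : Lat T) : α → Perm α := fun j =>
  (Equiv.ofBijective _ (h.bij j)).symm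

lemma rowsOf_eq (T : α → Perm α) (h : Lat T) (i j k : α) :
    rowsOf T h i j = k ↔ T k j = i := by
  unfold rowsOf
  rw [Equiv.symm_apply_eq]
  simp only [Equiv.ofBijective_apply]
  rw [Equiv.eq_symm_apply]

lemma colsOf_eq (T : α → Perm α) (h : Lat T) (i j k : α) :
    colsOf T h j i = k ↔ T k j = i := by
  unfold colsOf
  rw [Equiv.symm_apply_eq]
  simp only [Equiv.ofBijective_apply]
  exact eq_comm

lemma rows_cols (T : α → Perm α) (h : Lat T) (i j : α) :
    rowsOf T h i j = colsOf T h j i := by
  rw [rowsOf_eq, ← colsOf_eq T h i j]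

/-- The signed count of reduced squares, given by rows and columns. -/
lemma pairs_sum (o : α) :
    (∑ p ∈ (univ : Finset ((α → Perm α) × (α → Perm α))).filter
      (fun p => (∀ i j, p.1 i j = p.2 j i) ∧ (∀ j, p.1 o j = j) ∧ (∀ i, p.1 i o = i)),
      (((∏ i, Perm.sign (p.1 i)) * (∏ j, Perm.sign (p.2 j)) : ℤˣ) : ℤ))
    = (epsSw α : ℤ) * redSum o := by
  classical
  unfold redSum
  rw [Finset.mul_sum]
  refine Finset.sum_bij'
    (i := fun p hp => symb p.1 p.2 (by
      simp only [mem_filter, mem_univ, true_and] at hp; exact hp.1))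
    (j := fun T hT => (rowsOf T (by
      simp only [mem_filter, mem_univ, true_and] at hT; exact hT.1),
      colsOf T (by
      simp only [mem_filter, mem_univ, true_and] at hT; exact hT.1)))
    ?_ ?_ ?_ ?_ ?_
  · rintro ⟨R, C⟩ hp
    simp only [mem_filter, mem_univ, true_and] at hp ⊢
    obtain ⟨h1, h2, h3⟩ := hp
    refine ⟨symb_lat _ _ _, ?_, ?_⟩
    · intro k
      change (C o).symm k = k
      rw [Equiv.symm_apply_eq, ← h1, h3]
    · intro k
      change (C k).symm k = o
      rw [Equiv.symm_apply_eq, ← h1, h2]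
  · intro T hT
    simp only [mem_filter, mem_univ, true_and] at hT ⊢
    obtain ⟨h1, h2, h3⟩ := hT
    refine ⟨fun i j => rows_cols _ _ _ _, ?_, ?_⟩
    · intro j
      rw [rowsOf_eq, h3]
    · intro i
      rw [rowsOf_eq, h2]
  · rintro ⟨R, C⟩ hp
    simp only [mem_filter, mem_univ, true_and] at hp
    obtain ⟨h1, h2, h3⟩ := hp
    ext i j
    · change rowsOf (symb R C h1) (symb_lat R C h1) i j = R i j
      rw [rowsOf_eq]
      change (C j).symm (R i j) = i
      rw [Equiv.symm_apply_eq, h1]
    · change colsOf (symb R C h1) (symb_lat R C h1) i j = C i j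
      rw [colsOf_eq]
      change (C i).symm (C i j) = j
      simp
  · intro T hT
    simp only [mem_filter, mem_univ, true_and] at hT
    funext k
    ext j
    change (colsOf T hT.1 j).symm k = T k j
    rw [Equiv.symm_apply_eq]
    symm
    rw [colsOf_eq]
  · rintro ⟨R, C⟩ hp
    simp only [mem_filter, mem_univ, true_and] at hp
    simp only
    rw [sign_rel R C hp.1]
    push_cast
    rfl

end Pairs

end Pool.Agent.Helper75.LatinA
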