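import Mathlib
import Pool.Agent.Helper75.LatinA

set_option autoImplicit false

namespace Pool.Agent.Helper75.LatinB

open Equiv Finset MvPolynomial Pool.Agent.Helper75.LatinA

section

variable {σ : Type*} [Fintype σ] [DecidableEq σ]

/-- The exponent vector that is constantly one. -/
noncomputable def ones (σ : Type*) [Fintype σ] : σ →₀ ℕ := ∑ x : σ, Finsupp.single x 1

lemma ones_apply (x : σ) : ones σ x = 1 := by
  unfold ones
  rw [Finsupp.finsetSum_apply]
  simp [Finsupp.single_apply]

omit [DecidableEq σ] in
lemma mapDomain_ones (f : Perm σ) : (ones σ).mapDomain f = ones σ := by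
  classical
  unfold ones
  rw [Finsupp.mapDomain_finsetSum]
  simp only [Finsupp.mapDomain_single]
  exact Equiv.sum_comp f (fun x => Finsupp.single x 1)

lemma coeff_prod_X {ι : Type*} [DecidableEq ι] (s : Finset ι) (g : ι → σ) :
    coeff (ones σ) (∏ x ∈ s, (X (g x) : MvPolynomial σ ℤ)) =
      if (∀ y, (s.filter (fun x => g x = y)).card = 1) then 1 else 0 := by
  have h1 : (∏ x ∈ s, (X (g x) : MvPolynomial σ ℤ)) =
      monomial (∑ x ∈ s, Finsupp.single (g x) 1) 1 := by
    rw [monomial_sum_one]
    rfl
  rw [h1, coeff_monomial]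
  congr 1
  rw [eq_iff_iff, Finsupp.ext_iff]
  apply forall_congr'
  intro y
  rw [ones_apply, Finsupp.finsetSum_apply]
  simp only [Finsupp.single_apply]
  rw [Finset.sum_boole]
  simp

end

section Det

variable {α : Type*} [Fintype α] [DecidableEq α]

/-- Generic matrix. -/
noncomputable abbrev YM (α : Type*) [Fintype α] [DecidableEq α] :
    Matrix α α (MvPolynomial (α × α) ℤ) := Matrix.mvPolynomialX α α ℤ

lemma prod_sign_mul {ι : Type*} (s : Finset ι) (e : ι → ℤˣ)
    (F : ι → MvPolynomial (α × α) ℤ) (d : (α × α) →₀ ℕ) :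
    coeff d (∏ k ∈ s, (((e k : ℤˣ) : ℤ) : MvPolynomial (α × α) ℤ) * F k) =
      (∏ k ∈ s, ((e k : ℤˣ) : ℤ)) * coeff d (∏ k ∈ s, F k) := by
  rw [Finset.prod_mul_distrib]
  rw [← Int.cast_prod]
  have : ((∏ k ∈ s, ((e k : ℤˣ) : ℤ) : ℤ) : MvPolynomial (α × α) ℤ) = 
    C (∏ k ∈ s, ((e k : ℤˣ) : ℤ)) := by
    rw [eq_intCast]
  rw [this, coeff_C_mul]

lemma coeff_det_pow : 
    coeff (ones (α × α)) ((YM α).det ^ (Fintype.card α)) = latSum α := by
  classical
  have h1 : (YM α).det ^ (Fintype.card α) = ∏ _k : α, (YM α).det := by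
    rw [Finset.prod_const, Finset.card_univ]
  rw [h1]
  simp only [Matrix.det_apply']
  rw [Finset.prod_univ_sum, coeff_sum, Fintype.piFinset_univ]
  unfold latSum
  rw [Finset.sum_filter]
  apply Finset.sum_congr rfl
  intro T _
  rw [prod_sign_mul]
  simp only [Matrix.mvPolynomialX_apply]
  have h2 : (∏ k : α, ∏ i : α, (X (T k i, i) : MvPolynomial (α × α) ℤ)) =
      ∏ x : α × α, X (T x.1 x.2, x.2) := by
    rw [Fintype.prod_prod_type]
  rw [h2, coeff_prod_X]
  have h3 : (∀ y : α × α, ((univ : Finset (α × α)).filter 
      (fun x => (T x.1 x.2, x.2) = y)).card = 1) ↔ Lat T := by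
    constructor
    · intro h i k k' hk
      simp only at hk
      have h5 := h (T k i, i)
      rw [Finset.card_eq_one] at h5
      obtain ⟨a, ha⟩ := h5
      have h5 : (k, i) ∈ ({a} : Finset (α × α)) := by rw [← ha]; simp
      have h6 : (k', i) ∈ ({a} : Finset (α × α)) := by rw [← ha]; simp [hk]
      rw [mem_singleton] at h5 h6
      have h7 : (k, i) = (k', i) := by rw [h5, h6]
      exact (Prod.mk.inj h7).1
    · rintro h ⟨j, i⟩
      rw [Finset.card_eq_one]
      obtain ⟨k, hk⟩ := (h.bij i).2 j
      simp only at hk
      refine ⟨(k, i), ?_⟩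
      ext ⟨k', i'⟩
      simp only [mem_filter, mem_univ, true_and, mem_singleton, Prod.mk.injEq]
      constructor
      · rintro ⟨h7, rfl⟩
        refine ⟨?_, rfl⟩
        apply h i'
        simp only
        rw [h7, hk]
      · rintro ⟨rfl, rfl⟩
        exact ⟨hk, rfl⟩
  simp only [h3]
  split_ifs <;> simp

/-- The polynomial `det Y * ∏ adj(Y)_{π k, k}`. -/
noncomputable def FP (π : Perm α) : MvPolynomial (α × α) ℤ :=
  (YM α).det * ∏ k, (YM α).adjugate (π k) k

lemma det_pow_eq_sum (hpos : 0 < Fintype.card α) :
    (YM α).det ^ (Fintype.card α) = ∑ π : Perm α, (((Perm.sign π : ℤˣ) : ℤ) : 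
      MvPolynomial (α × α) ℤ) * FP π := by
  have h1 : (YM α).det ^ (Fintype.card α) = (YM α).det * (YM α).adjugate.det := by
    rw [Matrix.det_adjugate, ← pow_succ']
    congr 1
    omega
  rw [h1, Matrix.det_apply' (YM α).adjugate, Finset.mul_sum]
  apply Finset.sum_congr rfl
  intro π _
  unfold FP
  ring

/-- Column permutation of the variables. -/
def colP (π : Perm α) : Perm (α × α) := Equiv.prodCongr (Equiv.refl α) π

lemma rename_det (π : Perm α) (M : Matrix α α (MvPolynomial (α × α) ℤ)) :
    rename (colP π) M.det = ((rename (colP π)).mapMatrix M).det := by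
  rw [← AlgHom.map_det]

lemma rename_YM (π : Perm α) : (rename (colP π)).mapMatrix (YM α) = (YM α).submatrix id π := by
  ext i j
  simp [colP]

lemma rename_det_YM (π : Perm α) : rename (colP π) (YM α).det = 
    (((Perm.sign π : ℤˣ) : ℤ) : MvPolynomial (α × α) ℤ) * (YM α).det := by
  rw [rename_det, rename_YM, Matrix.det_permute']

lemma rename_adj (π : Perm α) (k : α) : rename (colP π) ((YM α).adjugate k k) = 
    (((Perm.sign π : ℤˣ) : ℤ) : MvPolynomial (α × α) ℤ) * (YM α).adjugate (π k) k := by
  rw [Matrix.adjugate_apply, Matrix.adjugate_apply, rename_det, ← Matrix.det_permute']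
  congr 1
  ext i j
  simp only [AlgHom.mapMatrix_apply, Matrix.map_apply, Matrix.submatrix_apply, id,
    Matrix.updateRow_apply]
  split_ifs with h
  · simp only [Pi.single_apply, EmbeddingLike.apply_eq_iff_eq]
    split_ifs <;> simp
  · simp [colP]

lemma coeff_rename (π : Perm α) (F : MvPolynomial (α × α) ℤ) :
    coeff (ones (α × α)) (rename (colP π) F) = coeff (ones (α × α)) F := by
  conv_lhs => rw [← mapDomain_ones (colP π)]
  rw [coeff_rename_mapDomain _ (colP π).injective]

lemma coeff_FP (π : Perm α) (hev : Even (Fintype.card α)) :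
    ((Perm.sign π : ℤˣ) : ℤ) * coeff (ones (α × α)) (FP π) = coeff (ones (α × α)) (FP (1 : Perm α)) := by
  rw [← coeff_rename π (FP (1 : Perm α))]
  have h1 : rename (colP π) (FP (1 : Perm α)) = C ((Perm.sign π : ℤˣ) : ℤ) * FP π := by
    unfold FP
    rw [map_mul, map_prod, rename_det_YM]
    simp only [Perm.coe_one, id, rename_adj]
    rw [Finset.prod_mul_distrib, Finset.prod_const, Finset.card_univ]
    obtain ⟨r, hr⟩ := hev
    have h2 : (((Perm.sign π : ℤˣ) : ℤ) : MvPolynomial (α × α) ℤ) ^ (Fintype.card α) = 1 := by
      rw [hr, ← two_mul, pow_mul]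
      norm_cast
      rw [Int.units_sq]
      simp
    rw [h2, eq_intCast]
    ring
  rw [h1, coeff_C_mul]

lemma latSum_eq_B (hpos : 0 < Fintype.card α) (hev : Even (Fintype.card α)) :
    latSum α = (Fintype.card α).factorial * coeff (ones (α × α)) (FP (1 : Perm α)) := by
  rw [← coeff_det_pow, det_pow_eq_sum hpos, coeff_sum]
  have : ∀ π : Perm α, coeff (ones (α × α)) ((((Perm.sign π : ℤˣ) : ℤ) : 
      MvPolynomial (α × α) ℤ) * FP π) = coeff (ones (α × α)) (FP (1 : Perm α)) := by
    intro π
    rw [← coeff_FP π hev, ← eq_intCast (C : ℤ →+* MvPolynomial (α × α) ℤ), coeff_C_mul]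
  simp_rw [this]
  rw [Finset.sum_const, Finset.card_univ, Fintype.card_perm, nsmul_eq_mul]

/-- The factors as a family over `Option α`. -/
noncomputable def GG : Option α → MvPolynomial (α × α) ℤ
  | none => (YM α).det
  | some k => (YM α).adjugate k k

lemma FP_one : FP (1 : Perm α) = ∏ k : Option α, GG k := by
  rw [Fintype.prod_option]
  rfl

open Classical in
/-- The terms of the factors. -/
noncomputable def HH (k : Option α) (τ : Perm α) : MvPolynomial (α × α) ℤ :=
  if (∀ i, some i = k → τ i = i) then
    ∏ i ∈ univ.filter (fun i => some i ≠ k), X (τ i, i) else 0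

lemma GG_eq (k : Option α) : GG k = ∑ τ : Perm α, (((Perm.sign τ : ℤˣ) : ℤ) : 
    MvPolynomial (α × α) ℤ) * HH k τ := by
  classical
  cases k with
  | none =>
    unfold GG
    rw [Matrix.det_apply']
    apply Finset.sum_congr rfl
    intro τ _
    unfold HH
    simp
  | some k =>
    unfold GG
    simp only
    rw [Matrix.adjugate_apply, Matrix.det_apply']
    apply Finset.sum_congr rfl
    intro τ _
    congr 1
    unfold HH
    split_ifs with h
    · have hk : τ k = k := h k rfl
      rw [← Finset.prod_filter_mul_prod_filter_not univ (fun i => some i ≠ some k)]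
      have h1 : (∏ x ∈ univ.filter (fun i => ¬ (some i ≠ some k)), 
          (YM α).updateRow k (Pi.single k 1) (τ x) x) = 1 := by
        apply Finset.prod_eq_one
        intro x hx
        simp only [ne_eq, Option.some.injEq, Decidable.not_not, mem_filter, mem_univ,
          true_and] at hx
        subst hx
        rw [hk, Matrix.updateRow_self, Pi.single_eq_same]
      rw [h1, mul_one]
      apply Finset.prod_congr rfl
      intro x hx
      simp only [ne_eq, Option.some.injEq, mem_filter, mem_univ, true_and] at hx
      have h2 : τ x ≠ k := by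
        intro h2
        apply hx
        apply τ.injective
        rw [h2, hk]
      rw [Matrix.updateRow_ne h2]
      exact Matrix.mvPolynomialX_apply α α ℤ (τ x) x
    · apply Finset.prod_eq_zero (mem_univ (τ.symm k))
      have hk : τ k ≠ k := by
        intro h2
        apply h
        intro i hi
        rw [Option.some.injEq] at hi
        rw [hi, h2]
      rw [Equiv.apply_symm_apply, Matrix.updateRow_self, Pi.single_eq_of_ne]
      intro h3
      apply hk
      rw [← h3, Equiv.apply_symm_apply, h3]

open Classical in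
/-- The admissible families. -/
def PS (S : Option α → Perm α) : Prop :=
  (∀ i, S (some i) i = i) ∧ ∀ y : α × α, 
    (((univ : Finset (Option α × α)).filter (fun x => some x.2 ≠ x.1)).filter 
      (fun x => (S x.1 x.2, x.2) = y)).card = 1

open Classical in
lemma coeff_FP_one : coeff (ones (α × α)) (FP (1 : Perm α)) = 
    ∑ S ∈ (univ : Finset (Option α → Perm α)).filter (fun S => PS S),
      ∏ k, ((Perm.sign (S k) : ℤˣ) : ℤ) := by
  rw [FP_one]
  simp only [GG_eq]
  rw [Finset.prod_univ_sum, coeff_sum, Fintype.piFinset_univ, Finset.sum_filter]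
  apply Finset.sum_congr rfl
  intro S _
  rw [prod_sign_mul]
  by_cases hA : ∀ i, S (some i) i = i
  · have h1 : (∏ k : Option α, HH k (S k)) = 
        ∏ x ∈ (univ : Finset (Option α × α)).filter (fun x => some x.2 ≠ x.1), 
          (X (S x.1 x.2, x.2) : MvPolynomial (α × α) ℤ) := by
      rw [Finset.prod_filter, Fintype.prod_prod_type]
      apply Finset.prod_congr rfl
      intro k _
      unfold HH
      rw [if_pos, Finset.prod_filter]
      rintro i rfl
      exact hA i
    rw [h1, coeff_prod_X]
    unfold PS
    by_cases h2 : ∀ y : α × α, 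
      (((univ : Finset (Option α × α)).filter (fun x => some x.2 ≠ x.1)).filter 
      (fun x => (S x.1 x.2, x.2) = y)).card = 1
    · rw [if_pos h2, if_pos ⟨hA, h2⟩, mul_one]
    · rw [if_neg h2, if_neg (fun h => h2 h.2), mul_zero]
  · rw [if_neg (fun h => hA h.1)]
    push Not at hA
    obtain ⟨i, hi⟩ := hA
    have h1 : (∏ k : Option α, HH k (S k)) = 0 := by
      apply Finset.prod_eq_zero (mem_univ (some i))
      unfold HH
      rw [if_neg]
      intro h
      exact hi (h i rfl)
    rw [h1]
    simp

/-- The extension of a family to `Option α`. -/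
def ext (S : Option α → Perm α) : Option α → Perm (Option α) := fun k =>
  Equiv.Perm.decomposeOption.symm (k, S k)

omit [Fintype α] in
lemma ext_none (S : Option α → Perm α) (k : Option α) : ext S k none = k := by
  simp [ext]

omit [Fintype α] in
lemma ext_some (S : Option α → Perm α) (k : Option α) (i : α) : 
    ext S k (some i) = swap none k (some (S k i)) := by
  simp [ext]

omit [Fintype α] in
lemma ext_some_ne (S : Option α → Perm α) (hA : ∀ i, S (some i) i = i) (k : Option α) (i : α) 
    (hk : some i ≠ k) : ext S k (some i) = some (S k i) := by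
  rw [ext_some]
  cases k with
  | none => simp
  | some k =>
    rw [swap_apply_of_ne_of_ne]
    · simp
    · intro h
      rw [Option.some.injEq] at h
      apply hk
      rw [Option.some.injEq]
      apply (S (some k)).injective
      rw [h, hA k]

lemma ext_lat_red (S : Option α → Perm α) : (Lat (ext S) ∧ Red none (ext S)) ↔ PS S := by
  classical
  have hred : Red none (ext S) ↔ ∀ i, S (some i) i = i := by
    constructor
    · rintro ⟨_, h2⟩ i
      have := h2 (some i)
      rw [ext_some, swap_apply_eq_iff, swap_apply_left, Option.some.injEq] at this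
      exact this
    · intro h
      refine ⟨ext_none S, ?_⟩
      intro k
      cases k with
      | none => exact ext_none S none
      | some i => rw [ext_some, h i, swap_apply_right]
  rw [and_comm]
  unfold PS
  rw [hred]
  apply and_congr_right
  intro hA
  constructor
  · rintro h ⟨j, i⟩
    rw [Finset.card_eq_one]
    obtain ⟨k, hk⟩ := (h.bij (some i)).2 (some j)
    simp only at hk
    have hki : some i ≠ k := by
      rintro rfl
      rw [(hred.mpr hA).2] at hk
      simp at hk
    rw [ext_some_ne S hA k i hki, Option.some.injEq] at hk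
    refine ⟨(k, i), ?_⟩
    ext ⟨k', i'⟩
    simp only [mem_filter, mem_univ, true_and, mem_singleton, Prod.mk.injEq]
    constructor
    · rintro ⟨h1, h2, rfl⟩
      refine ⟨?_, rfl⟩
      apply h (some i')
      simp only
      rw [ext_some_ne S hA k' i' h1, ext_some_ne S hA k i' hki, h2, hk]
    · rintro ⟨rfl, rfl⟩
      exact ⟨hki, hk, rfl⟩
  · intro h i
    cases i with
    | none =>
      intro k k' hk
      simp only [ext_none] at hk
      exact hk
    | some i =>
      intro k k' hk
      simp only at hk
      by_cases h1 : some i = k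
      · by_cases h2 : some i = k'
        · rw [← h1, ← h2]
        · exfalso
          rw [ext_some_ne S hA k' i h2, ← h1, (hred.mpr hA).2] at hk
          simp at hk
      · by_cases h2 : some i = k'
        · exfalso
          rw [ext_some_ne S hA k i h1, ← h2, (hred.mpr hA).2] at hk
          simp at hk
        · rw [ext_some_ne S hA k i h1, ext_some_ne S hA k' i h2, Option.some.injEq] at hk
          have h3 := h (S k i, i)
          rw [Finset.card_eq_one] at h3
          obtain ⟨a, ha⟩ := h3
          have h5 : (k, i) ∈ ({a} : Finset (Option α × α)) := by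
            rw [← ha]; simp [h1]
          have h6 : (k', i) ∈ ({a} : Finset (Option α × α)) := by
            rw [← ha]; simp [h2, hk]
          rw [mem_singleton] at h5 h6
          have h7 : (k, i) = (k', i) := by rw [h5, h6]
          exact (Prod.mk.inj h7).1

lemma ext_sign (S : Option α → Perm α) : 
    ∏ k, ((Perm.sign (ext S k) : ℤˣ) : ℤ) = 
      (-1) ^ (Fintype.card α) * ∏ k, ((Perm.sign (S k) : ℤˣ) : ℤ) := by
  rw [Fintype.prod_option, Fintype.prod_option]
  have h0 : Perm.sign (ext S none) = Perm.sign (S none) := by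
    simp [ext]
  have h1 : ∀ i, ((Perm.sign (ext S (some i)) : ℤˣ) : ℤ) = 
      (-1) * ((Perm.sign (S (some i)) : ℤˣ) : ℤ) := by
    intro i
    unfold ext
    rw [Equiv.Perm.decomposeOption_symm_apply, Perm.sign_mul, Perm.sign_swap (by simp), 
      Equiv.optionCongr_sign]
    push_cast
    rfl
  simp_rw [h1]
  rw [h0, Finset.prod_mul_distrib, Finset.prod_const, Finset.card_univ]
  ring

lemma B_eq_redSum : coeff (ones (α × α)) (FP (1 : Perm α)) = 
    (-1) ^ (Fintype.card α) * redSum (none : Option α) := by
  classical
  rw [coeff_FP_one]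
  unfold redSum
  rw [Finset.mul_sum]
  refine Finset.sum_bij' (fun S _ => ext S) 
    (fun T _ => fun k => (Equiv.Perm.decomposeOption (T k)).2) ?_ ?_ ?_ ?_ ?_
  · intro S hS
    simp only [mem_filter, mem_univ, true_and] at hS ⊢
    exact (ext_lat_red S).mpr hS
  · intro T hT
    simp only [mem_filter, mem_univ, true_and] at hT ⊢
    rw [← ext_lat_red]
    have : ext (fun k => (Equiv.Perm.decomposeOption (T k)).2) = T := by
      funext k
      unfold ext
      rw [Equiv.symm_apply_eq]
      ext1
      · simp [hT.2.1 k]
      · rfl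
    rw [this]
    exact hT
  · intro S _
    funext k
    exact congrArg Prod.snd (Equiv.Perm.decomposeOption.apply_symm_apply (k, S k))
  · intro T hT
    simp only [mem_filter, mem_univ, true_and] at hT
    funext k
    unfold ext
    rw [Equiv.symm_apply_eq]
    ext1
    · simp [hT.2.1 k]
    · rfl
  · intro S _
    rw [ext_sign, ← mul_assoc, ← mul_pow]
    simp

/-- Main recursion for the symbol sums. -/
theorem redSum_option (o : α) (hev : Even (Fintype.card α)) :
    redSum (none : Option α) = (Fintype.card α - 1).factorial * redSum o := by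
  have hpos : 0 < Fintype.card α := Fintype.card_pos_iff.mpr ⟨o⟩
  have h1 := latSum_eq_B (α := α) hpos hev
  rw [B_eq_redSum, hev.neg_one_pow, one_mul, latSum_eq o, normSum_eq o hev] at h1
  have h2 : ((Fintype.card α).factorial : ℤ) ≠ 0 := by positivity
  have h3 := mul_left_cancel₀ h2 h1
  exact h3.symm

end Det

end Pool.Agent.Helper75.LatinB
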