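import Mathlib
import Pool.Agent.Helper75.LatinA
import Pool.Agent.Helper75.LatinB

set_option autoImplicit false

namespace Pool.Agent.Helper75.LatinC

open Equiv Finset Pool.Agent.Helper75.LatinA Pool.Agent.Helper75.LatinB

lemma card_diff {ι : Type*} (s : Finset ι) (f : ι → ℤˣ) :
    (((s.filter (fun p => f p = 1)).card : ℤ) - ((s.filter (fun p => f p = -1)).card : ℤ)) =
      ∑ p ∈ s, ((f p : ℤˣ) : ℤ) := by
  classical
  rw [Finset.card_filter, Finset.card_filter]
  push_cast
  rw [← Finset.sum_sub_distrib]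
  apply Finset.sum_congr rfl
  intro p _
  rcases Int.units_eq_one_or (f p) with h | h <;> simp [h]

/-- Transport of the reduced sum along an equivalence. -/
lemma redSum_equiv {α β : Type*} [Fintype α] [DecidableEq α] [Fintype β] [DecidableEq β]
    (e : α ≃ β) (o : α) : redSum (e o) = redSum o := by
  classical
  unfold redSum
  symm
  refine Finset.sum_bij' (fun T _ => fun k => e.permCongr (T (e.symm k)))
    (fun T _ => fun k => e.symm.permCongr (T (e k))) ?_ ?_ ?_ ?_ ?_
  · intro T hT
    simp only [mem_filter, mem_univ, true_and] at hT ⊢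
    obtain ⟨h1, h2, h3⟩ := hT
    refine ⟨?_, ?_, ?_⟩
    · intro i k k' hk
      simp only [permCongr_apply, EmbeddingLike.apply_eq_iff_eq] at hk
      exact e.symm.injective (h1 _ hk)
    · intro k
      simp [h2]
    · intro k
      simp [h3]
  · intro T hT
    simp only [mem_filter, mem_univ, true_and] at hT ⊢
    obtain ⟨h1, h2, h3⟩ := hT
    refine ⟨?_, ?_, ?_⟩
    · intro i k k' hk
      simp only [permCongr_apply, EmbeddingLike.apply_eq_iff_eq] at hk
      exact e.injective (h1 _ hk)
    · intro k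
      simp [h2]
    · intro k
      simp [h3]
  · intro T _
    funext k
    ext i
    simp
  · intro T _
    funext k
    ext i
    simp
  · intro T _
    simp only [Perm.sign_permCongr]
    exact (Equiv.prod_comp e.symm (fun k => ((Perm.sign (T k) : ℤˣ) : ℤ))).symm

/-- Value of the sign of the coordinate swap. -/
lemma epsSw_fin (n : ℕ) : epsSw (Fin n) = (-1) ^ (n * (n - 1) / 2) := by
  unfold epsSw
  rw [Perm.sign_of_pow_two_eq_one]
  · congr 1
    have h1 : Fintype.card (Fin n × Fin n) = n * n := by simp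
    have h2 : Fintype.card (Function.fixedPoints (Equiv.prodComm (Fin n) (Fin n) : Perm (Fin n × Fin n)))
        = n := by
      have e : (Function.fixedPoints (Equiv.prodComm (Fin n) (Fin n) : Perm (Fin n × Fin n))) ≃ Fin n :=
        { toFun := fun x => x.1.1
          invFun := fun i => ⟨(i, i), rfl⟩
          left_inv := by
            rintro ⟨⟨a, b⟩, h⟩
            have h' : (b, a) = (a, b) := h
            rw [Prod.mk.injEq] at h'
            obtain ⟨rfl, _⟩ := h'
            rfl
          right_inv := fun i => rfl }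
      rw [Fintype.card_congr e, Fintype.card_fin]
    rw [h1, h2]
    congr 1
    cases n with
    | zero => rfl
    | succ n => simp [Nat.mul_add]
  · ext1 x
    simp [pow_two]

/-- The number of reduced Latin squares of order `n` with sign `s`.  A Latin square is given by the
pair of its row permutations `p.1 i : j ↦ L(i,j)` and its column permutations
`p.2 j : i ↦ L(i,j)`; rows, columns and symbols are indexed by `Fin n`, the first one being `0`. -/
def redCount (n : ℕ) (s : ℤˣ) : ℕ :=
  ((Finset.univ : Finset ((Fin n → Equiv.Perm (Fin n)) × (Fin n → Equiv.Perm (Fin n)))).filter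
    (fun p => (∀ i j : Fin n, p.1 i j = p.2 j i) ∧
      (∀ i j : Fin n, i.val = 0 → p.1 i j = j) ∧
      (∀ i j : Fin n, j.val = 0 → p.1 i j = i) ∧
      (∏ i : Fin n, Equiv.Perm.sign (p.1 i)) * (∏ j : Fin n, Equiv.Perm.sign (p.2 j)) = s)).card

lemma redCount_diff (m : ℕ) :
    (redCount (m + 1) 1 : ℤ) - redCount (m + 1) (-1) =
      ((-1 : ℤˣ) ^ ((m + 1) * m / 2) : ℤˣ) * redSum (0 : Fin (m + 1)) := by
  have h0 : ∀ s : ℤˣ, redCount (m + 1) s = 
    (((univ : Finset ((Fin (m + 1) → Perm (Fin (m + 1))) × (Fin (m + 1) → Perm (Fin (m + 1))))).filter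
      (fun p => (∀ i j, p.1 i j = p.2 j i) ∧ (∀ j, p.1 0 j = j) ∧ (∀ i, p.1 i 0 = i))).filter
      (fun p => (∏ i, Perm.sign (p.1 i)) * (∏ j, Perm.sign (p.2 j)) = s)).card := by
    intro s
    unfold redCount
    rw [Finset.filter_filter]
    congr 1
    apply Finset.filter_congr
    intro p _
    constructor
    · rintro ⟨h1, h2, h3, h4⟩
      exact ⟨⟨h1, fun j => h2 0 j rfl, fun i => h3 i 0 rfl⟩, h4⟩
    · rintro ⟨⟨h1, h2, h3⟩, h4⟩
      refine ⟨h1, ?_, ?_, h4⟩
      · intro i j hi
        have : i = 0 := Fin.ext hi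
        rw [this]; exact h2 j
      · intro i j hj
        have : j = 0 := Fin.ext hj
        rw [this]; exact h3 i
  rw [h0 1, h0 (-1)]
  have h1 := card_diff ((univ : Finset ((Fin (m + 1) → Perm (Fin (m + 1))) × 
      (Fin (m + 1) → Perm (Fin (m + 1))))).filter
      (fun p => (∀ i j, p.1 i j = p.2 j i) ∧ (∀ j, p.1 0 j = j) ∧ (∀ i, p.1 i 0 = i)))
      (fun p => (∏ i, Perm.sign (p.1 i)) * (∏ j, Perm.sign (p.2 j)))
  rw [h1]
  have h2 := pairs_sum (0 : Fin (m + 1))
  rw [epsSw_fin] at h2
  refine Eq.trans ?_ h2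
  apply Finset.sum_congr _ (fun _ _ => rfl)
  ext p
  simp only [mem_filter]

/-- The recursion for odd order. -/
theorem redCount_odd (m : ℕ) (hm : Even (m + 1)) :
    (redCount (m + 2) 1 : ℤ) - redCount (m + 2) (-1) =
      (m.factorial : ℤ) * ((redCount (m + 1) 1 : ℤ) - redCount (m + 1) (-1)) := by
  rw [redCount_diff, redCount_diff]
  have h1 := redSum_option (α := Fin (m + 1)) 0 (by simpa using hm)
  have h2 := redSum_equiv (finSuccEquiv (m + 1)) 0
  rw [finSuccEquiv_zero] at h2
  rw [← h2, h1]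
  simp only [Fintype.card_fin, Nat.add_sub_cancel]
  have h3 : ((-1 : ℤˣ) ^ ((m + 1 + 1) * (m + 1) / 2)) = (-1 : ℤˣ) ^ ((m + 1) * m / 2) := by
    obtain ⟨r, hr⟩ := hm
    have e1 : (m + 1 + 1) * (m + 1) / 2 = (m + 1) * m / 2 + 2 * r := by
      have : m + 1 = 2 * r := by omega
      have hm' : m = 2 * r - 1 := by omega
      have e2 : (m + 1 + 1) * (m + 1) = (m + 1) * m + 2 * (m + 1) := by ring
      rw [e2, Nat.add_mul_div_left _ _ (by norm_num : 0 < 2), this]
    rw [e1, pow_add, pow_mul, Int.units_sq]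
    simp
  rw [h3]
  ring

end Pool.Agent.Helper75.LatinC
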