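import Mathlib
import Pool.Agent.Helper75.LatinA
import Pool.Agent.Helper75.LatinB
import Pool.Agent.Helper75.LatinC

set_option autoImplicit false

namespace Pool.Agent.Helper75.LatinD

open Equiv Finset MvPolynomial Pool.Agent.Helper75.LatinA Pool.Agent.Helper75.LatinB
  Pool.Agent.Helper75.LatinC

section Functional

variable {p : ℕ} [hpf : Fact p.Prime]

lemma sum_pow_zero (h2 : 2 < p) : ∑ t : ZMod p, t ^ (p - 2) = 0 := by
  apply FiniteField.sum_pow_lt_card_sub_one
  rw [ZMod.card]
  omega

lemma sum_pow_one (h2 : 2 < p) : ∑ t : ZMod p, t ^ (p - 1) = -1 := by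
  have h : ∀ t : ZMod p, t ^ (p - 1) = if t = 0 then 0 else 1 := by
    intro t
    split_ifs with ht
    · rw [ht, zero_pow (by omega)]
    · exact ZMod.pow_card_sub_one_eq_one ht
  simp_rw [h]
  rw [Finset.sum_ite]
  simp only [Finset.sum_const_zero, zero_add, Finset.sum_const, nsmul_eq_mul, mul_one]
  rw [Finset.filter_not, Finset.filter_eq' univ (0 : ZMod p), if_pos (mem_univ _),
    Finset.card_sdiff_of_subset (by simp), Finset.card_univ, ZMod.card, Finset.card_singleton,
    Nat.cast_sub (by omega)]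
  simp

variable {σ : Type*} [Fintype σ] [DecidableEq σ]

lemma functional (h2 : 2 < p) (F : MvPolynomial σ (ZMod p))
    (hF : F.IsHomogeneous (Fintype.card σ)) :
    ∑ y : σ → ZMod p, eval y F * ∏ i, (y i) ^ (p - 2) =
      (-1) ^ (Fintype.card σ) * coeff (ones σ) F := by
  have h1 : ∀ y : σ → ZMod p, eval y F * ∏ i, (y i) ^ (p - 2) = 
      ∑ d ∈ F.support, F.coeff d * ∏ i, (y i) ^ (d i + (p - 2)) := by
    intro y
    rw [eval_eq', Finset.sum_mul]
    apply Finset.sum_congr rfl
    intro d _
    rw [mul_assoc, ← Finset.prod_mul_distrib]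
    simp_rw [pow_add]
  simp_rw [h1]
  rw [Finset.sum_comm]
  simp_rw [← Finset.mul_sum]
  have h3 : ∀ d : σ →₀ ℕ, ∑ y : σ → ZMod p, ∏ i, (y i) ^ (d i + (p - 2)) = 
      ∏ i, ∑ t : ZMod p, t ^ (d i + (p - 2)) := by
    intro d
    rw [Finset.prod_univ_sum, Fintype.piFinset_univ]
  simp_rw [h3]
  have h4 : ∀ d ∈ F.support, d ≠ ones σ → ∏ i, ∑ t : ZMod p, t ^ (d i + (p - 2)) = 0 := by
    intro d hd hne
    have hdeg : d.degree = Fintype.card σ := by
      by_contra hcon
      exact (mem_support_iff.mp hd) (hF.coeff_eq_zero hcon)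
    rw [Finsupp.degree_eq_sum] at hdeg
    have : ∃ i, d i = 0 := by
      by_contra hcon
      push Not at hcon
      apply hne
      ext i
      rw [ones_apply]
      have h5 : ∑ i : σ, d i = ∑ i : σ, 1 := by
        rw [hdeg]; simp
      have h6 : ∀ i ∈ (univ : Finset σ), 1 ≤ d i := fun i _ => Nat.one_le_iff_ne_zero.mpr (hcon i)
      exact ((Finset.sum_eq_sum_iff_of_le h6).mp h5.symm i (mem_univ i)).symm
    obtain ⟨i, hi⟩ := this
    apply Finset.prod_eq_zero (mem_univ i)
    rw [hi, zero_add, sum_pow_zero h2]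
  have h5 : ∏ i : σ, ∑ t : ZMod p, t ^ ((ones σ) i + (p - 2)) = (-1) ^ (Fintype.card σ) := by
    have : ∀ i : σ, ∑ t : ZMod p, t ^ ((ones σ) i + (p - 2)) = -1 := by
      intro i
      rw [ones_apply, show 1 + (p - 2) = p - 1 by omega, sum_pow_one h2]
    simp_rw [this]
    rw [Finset.prod_const, Finset.card_univ]
  by_cases hs : ones σ ∈ F.support
  · rw [Finset.sum_eq_single_of_mem _ hs]
    · rw [h5, mul_comm]
    · intro d hd hne
      rw [h4 d hd hne, mul_zero]
  · rw [Finset.sum_eq_zero]
    · rw [notMem_support_iff.mp hs, mul_zero]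
    · intro d hd
      rw [h4 d hd (fun h => hs (h ▸ hd)), mul_zero]

lemma coeff_prod_X' {R : Type*} [CommSemiring R] {ι : Type*} [DecidableEq ι] (s : Finset ι) 
    (g : ι → σ) :
    coeff (ones σ) (∏ x ∈ s, (X (g x) : MvPolynomial σ R)) =
      if (∀ y, (s.filter (fun x => g x = y)).card = 1) then 1 else 0 := by
  have h1 : (∏ x ∈ s, (X (g x) : MvPolynomial σ R)) =
      monomial (∑ x ∈ s, Finsupp.single (g x) 1) 1 := by
    rw [monomial_sum_one]
    rfl
  rw [h1, coeff_monomial]
  congr 1
  rw [eq_iff_iff, Finsupp.ext_iff]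
  apply forall_congr'
  intro y
  rw [ones_apply, Finsupp.finsetSum_apply]
  simp only [Finsupp.single_apply]
  rw [Finset.sum_boole]
  simp

lemma coeff_linear_pow (v : σ → ZMod p) :
    coeff (ones σ) ((∑ j, C (v j) * X j : MvPolynomial σ (ZMod p)) ^ (Fintype.card σ)) =
      (Fintype.card σ).factorial * ∏ j, v j := by
  classical
  have h1 : (∑ j, C (v j) * X j : MvPolynomial σ (ZMod p)) ^ (Fintype.card σ) = 
      ∏ _k : σ, (∑ j, C (v j) * X j) := by
    rw [Finset.prod_const, Finset.card_univ]
  rw [h1, Finset.prod_univ_sum, coeff_sum, Fintype.piFinset_univ]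
  have h2 : ∀ f : σ → σ, coeff (ones σ) (∏ k, (C (v (f k)) * X (f k) : MvPolynomial σ (ZMod p)))
      = if Function.Bijective f then ∏ j, v j else 0 := by
    intro f
    rw [Finset.prod_mul_distrib, ← map_prod, coeff_C_mul, coeff_prod_X']
    have h3 : (∀ y, ((univ : Finset σ).filter (fun x => f x = y)).card = 1) ↔ 
        Function.Bijective f := by
      rw [Function.bijective_iff_existsUnique]
      apply forall_congr'
      intro y
      rw [Finset.card_eq_one]
      constructor
      · rintro ⟨a, ha⟩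
        refine ⟨a, ?_, ?_⟩
        · have : a ∈ ({a} : Finset σ) := mem_singleton_self a
          rw [← ha] at this
          simpa using this
        · intro b hb
          have : b ∈ ({a} : Finset σ) := by rw [← ha]; simpa using hb
          simpa using this
      · rintro ⟨a, ha, hu⟩
        refine ⟨a, ?_⟩
        ext b
        simp only [mem_filter, mem_univ, true_and, mem_singleton]
        exact ⟨fun hb => hu b hb, fun hb => hb ▸ ha⟩
    simp only [h3]
    split_ifs with hb
    · rw [mul_one]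
      exact Function.Bijective.prod_comp hb v
    · rw [mul_zero]
  simp_rw [h2]
  rw [← Finset.sum_filter, Finset.sum_const, nsmul_eq_mul]
  congr 2
  rw [← Fintype.card_perm, ← Fintype.card_subtype]
  exact (Fintype.card_congr (Equiv.ofBijective (fun e : Perm σ => 
    (⟨e, e.bijective⟩ : {f : σ → σ // Function.Bijective f})) ⟨fun a b h => by
      ext x
      have := congrArg (fun g : {f : σ → σ // Function.Bijective f} => g.1 x) h
      simpa using this, fun g => ⟨Equiv.ofBijective g.1 g.2, by ext; rfl⟩⟩)).symm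

/-- The power sum formula for `det ^ (p-1)`. -/
lemma det_pow_sum (h2 : 2 < p) (A : Matrix σ σ (ZMod p)) :
    ∑ v : σ → ZMod p, ∏ i, (A.mulVec v i) ^ (p - 1) = 
      (-1) ^ (Fintype.card σ) * A.det ^ (p - 1) := by
  by_cases hA : A.det = 0
  · rw [hA, zero_pow (by omega), mul_zero]
    obtain ⟨u, hu, hAu⟩ := Matrix.exists_mulVec_eq_zero_iff.mpr hA
    obtain ⟨i0, hi0⟩ := Function.ne_iff.mp hu
    simp only [Pi.zero_apply] at hi0
    have h3 : ∀ (c : ZMod p) (v : σ → ZMod p), A.mulVec (v + c • u) = A.mulVec v := by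
      intro c v
      rw [Matrix.mulVec_add, Matrix.mulVec_smul, hAu, smul_zero, add_zero]
    rw [← Finset.sum_fiberwise_of_maps_to (t := univ) (g := fun v : σ → ZMod p => v i0) 
      (fun _ _ => mem_univ _)]
    have h4 : ∀ c : ZMod p, 
        ∑ v ∈ univ.filter (fun v : σ → ZMod p => v i0 = c), ∏ i, (A.mulVec v i) ^ (p - 1) =
        ∑ v ∈ univ.filter (fun v : σ → ZMod p => v i0 = 0), ∏ i, (A.mulVec v i) ^ (p - 1) := by
      intro c
      refine Finset.sum_bij' (fun v _ => v + (-(c / u i0)) • u) (fun v _ => v + (c / u i0) • u)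
        ?_ ?_ ?_ ?_ ?_
      · intro v hv
        simp only [mem_filter, mem_univ, true_and, Pi.add_apply, Pi.smul_apply, smul_eq_mul] at hv ⊢
        rw [hv]
        field_simp
        ring
      · intro v hv
        simp only [mem_filter, mem_univ, true_and, Pi.add_apply, Pi.smul_apply, smul_eq_mul] at hv ⊢
        rw [hv]
        field_simp
        ring
      · intro v _
        simp [add_assoc, ← add_smul]
      · intro v _
        simp [add_assoc, ← add_smul]
      · intro v _
        rw [h3]
    simp_rw [h4]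
    rw [Finset.sum_const, Finset.card_univ, ZMod.card, nsmul_eq_mul]
    simp
  · rw [ZMod.pow_card_sub_one_eq_one hA, mul_one]
    have hinj : Function.Injective (A.mulVec) := by
      rw [Matrix.mulVec_injective_iff_isUnit]
      rw [Matrix.isUnit_iff_isUnit_det]
      exact isUnit_iff_ne_zero.mpr hA
    have hbij : Function.Bijective (A.mulVec) := Finite.injective_iff_bijective.mp hinj
    rw [Function.Bijective.sum_comp hbij (fun w => ∏ i, (w i) ^ (p - 1))]
    have h6 := Finset.prod_univ_sum (fun _ : σ => (univ : Finset (ZMod p))) 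
      (fun _ t => t ^ (p - 1))
    rw [Fintype.piFinset_univ] at h6
    rw [← h6]
    simp_rw [sum_pow_one h2]
    rw [Finset.prod_const, Finset.card_univ]

end Functional

section Glynn

variable {p : ℕ} [hpf : Fact p.Prime] {α : Type*} [Fintype α] [DecidableEq α]

/-- The coefficient of the all-one monomial in `det ^ (p-1)` is one modulo `p`. -/
lemma coeff_det_mod (h2 : 2 < p) (hc : Fintype.card α = p - 1) :
    coeff (ones (α × α)) ((Matrix.mvPolynomialX α α (ZMod p)).det ^ (p - 1)) = 1 := by
  have hev : Even (p - 1) := by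
    have := hpf.out.eq_two_or_odd'
    rcases this with h | h
    · omega
    · obtain ⟨r, hr⟩ := h
      exact ⟨r, by omega⟩
  set F : MvPolynomial (α × α) (ZMod p) := (Matrix.mvPolynomialX α α (ZMod p)).det ^ (p - 1) with hF
  have hhom : F.IsHomogeneous (Fintype.card (α × α)) := by
    have h3 : (Matrix.mvPolynomialX α α (ZMod p)).det.IsHomogeneous (Fintype.card α) := by
      rw [Matrix.det_apply']
      apply IsHomogeneous.sum
      intro τ _
      have h4 : (∏ i, Matrix.mvPolynomialX α α (ZMod p) (τ i) i).IsHomogeneous 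
          (∑ _i : α, 1) := by
        apply IsHomogeneous.prod
        intro i _
        rw [Matrix.mvPolynomialX_apply]
        exact isHomogeneous_X _ _
      have h5 : (((Perm.sign τ : ℤˣ) : ℤ) : MvPolynomial (α × α) (ZMod p)).IsHomogeneous 0 := by
        have h6 : (((Perm.sign τ : ℤˣ) : ℤ) : MvPolynomial (α × α) (ZMod p)) =
          C (((Perm.sign τ : ℤˣ) : ℤ) : ZMod p) := by
          simp
        rw [h6]
        exact isHomogeneous_C _ _
      have h7 := h5.mul h4
      simpa using h7
    have h8 := h3.pow (p - 1)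
    rw [Fintype.card_prod]
    have h9 : Fintype.card α * Fintype.card α = Fintype.card α * (p - 1) := by rw [hc]
    rw [h9]
    exact h8
  have h3 := functional h2 F hhom
  have h4 : ((-1 : ZMod p)) ^ (Fintype.card (α × α)) = 1 := by
    rw [Fintype.card_prod, hc]
    exact (hev.mul_left _).neg_one_pow
  rw [h4, one_mul] at h3
  rw [← h3]
  have h5 : ∀ y : α × α → ZMod p, eval y F = 
      ∑ v : α → ZMod p, ∏ i, (∑ j, y (i, j) * v j) ^ (p - 1) := by
    intro y
    have h6 := det_pow_sum h2 (Matrix.of fun i j => y (i, j))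
    rw [hc, hev.neg_one_pow, one_mul] at h6
    rw [hF, map_pow, RingHom.map_det]
    have h7 : (eval y).mapMatrix (Matrix.mvPolynomialX α α (ZMod p)) = 
        Matrix.of fun i j => y (i, j) := by
      ext i j
      simp
    rw [h7, ← h6]
    rfl
  simp_rw [h5, Finset.sum_mul]
  rw [Finset.sum_comm]
  have h6 : ∀ v : α → ZMod p, 
      ∑ y : α × α → ZMod p, (∏ i, (∑ j, y (i, j) * v j) ^ (p - 1)) * ∏ i, (y i) ^ (p - 2) = 
      (((p - 1).factorial : ZMod p) * ∏ j, v j) ^ (p - 1) := by
    intro v
    have h7 : ∀ y : α × α → ZMod p, 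
        (∏ i, (∑ j, y (i, j) * v j) ^ (p - 1)) * ∏ i, (y i) ^ (p - 2) = 
        ∏ i, ((∑ j, y (i, j) * v j) ^ (p - 1) * ∏ j, (y (i, j)) ^ (p - 2)) := by
      intro y
      rw [Fintype.prod_prod_type, ← Finset.prod_mul_distrib]
    simp_rw [h7]
    have h8 := Equiv.sum_comp (Equiv.curry α α (ZMod p)) (fun z : α → α → ZMod p => 
      ∏ i, ((∑ j, z i j * v j) ^ (p - 1) * ∏ j, (z i j) ^ (p - 2)))
    have h9 : ∑ y : α × α → ZMod p, 
        ∏ i, ((∑ j, y (i, j) * v j) ^ (p - 1) * ∏ j, (y (i, j)) ^ (p - 2)) = 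
        ∑ z : α → α → ZMod p, ∏ i, ((∑ j, z i j * v j) ^ (p - 1) * ∏ j, (z i j) ^ (p - 2)) := by
      rw [← h8]
      rfl
    rw [h9]
    have h10 := Finset.prod_univ_sum (fun _ : α => (univ : Finset (α → ZMod p))) 
      (fun _ z => (∑ j, z j * v j) ^ (p - 1) * ∏ j, (z j) ^ (p - 2))
    rw [Fintype.piFinset_univ] at h10
    rw [← h10, Finset.prod_const, Finset.card_univ, hc]
    congr 1
    have h11 := functional h2 ((∑ j, C (v j) * X j : MvPolynomial α (ZMod p)) ^ (Fintype.card α)) (by
      have h12 : (∑ j, C (v j) * X j : MvPolynomial α (ZMod p)).IsHomogeneous 1 := by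
        apply IsHomogeneous.sum
        intro j _
        have := (isHomogeneous_C α (v j)).mul (isHomogeneous_X (ZMod p) j)
        simpa using this
      have := h12.pow (Fintype.card α)
      simpa using this)
    rw [coeff_linear_pow, hc, hev.neg_one_pow, one_mul] at h11
    rw [← h11]
    apply Finset.sum_congr rfl
    intro z _
    congr 1
    rw [map_pow, map_sum]
    congr 1
    apply Finset.sum_congr rfl
    intro j _
    rw [map_mul, eval_C, eval_X, mul_comm]
  simp_rw [h6, mul_pow]
  rw [← Finset.mul_sum]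
  have h7 : (((p - 1).factorial : ZMod p)) ^ (p - 1) = 1 := by
    rw [ZMod.wilsons_lemma, hev.neg_one_pow]
  rw [h7, one_mul]
  simp_rw [← Finset.prod_pow]
  have h10 := Finset.prod_univ_sum (fun _ : α => (univ : Finset (ZMod p))) 
      (fun _ t => t ^ (p - 1))
  rw [Fintype.piFinset_univ] at h10
  rw [← h10]
  simp_rw [sum_pow_one h2]
  rw [Finset.prod_const, Finset.card_univ, hc, hev.neg_one_pow]

/-- The signed count of Latin families of order `p - 1` is one modulo `p`. -/
lemma latSum_mod (h2 : 2 < p) (hc : Fintype.card α = p - 1) :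
    ((latSum α : ℤ) : ZMod p) = 1 := by
  rw [← coeff_det_pow, hc]
  have h1 := coeff_map (Int.castRingHom (ZMod p)) ((YM α).det ^ (p - 1)) (ones (α × α))
  have h2' : ((coeff (ones (α × α)) ((YM α).det ^ (p - 1)) : ℤ) : ZMod p) = 
      (Int.castRingHom (ZMod p)) (coeff (ones (α × α)) ((YM α).det ^ (p - 1))) := rfl
  rw [h2', ← h1, map_pow, RingHom.map_det]
  have h3 : (MvPolynomial.map (Int.castRingHom (ZMod p))).mapMatrix (YM α) = 
      Matrix.mvPolynomialX α α (ZMod p) := by
    ext i j
    simp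
  rw [h3, coeff_det_mod h2 hc]

/-- The signed count of reduced squares of odd prime order. -/
theorem redCount_prime (h2 : 2 < p) :
    ((((redCount p 1 : ℤ) - redCount p (-1) : ℤ)) : ZMod p) = (-1) ^ ((p + 1) / 2) := by
  obtain ⟨m, rfl⟩ : ∃ m, p = m + 2 := ⟨p - 2, by omega⟩
  have hev : Even (m + 1) := by
    rcases hpf.out.eq_two_or_odd' with h | h
    · omega
    · obtain ⟨r, hr⟩ := h
      exact ⟨r, by omega⟩
  have h3 := latSum_mod (p := m + 2) (α := Fin (m + 1)) h2 (by simp)
  have h4 := latSum_eq_B (α := Fin (m + 1)) (by simp) (by simpa using hev)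
  rw [B_eq_redSum] at h4
  simp only [Fintype.card_fin] at h4
  rw [hev.neg_one_pow, one_mul] at h4
  have h5 := redSum_equiv (finSuccEquiv (m + 1)) 0
  rw [finSuccEquiv_zero] at h5
  rw [h4] at h3
  rw [redCount_diff, ← h5]
  push_cast at h3 ⊢
  have h6 : (((m + 1).factorial : ℕ) : ZMod (m + 2)) = -1 := by
    have := ZMod.wilsons_lemma (m + 2)
    simpa using this
  rw [h6] at h3
  have h7 : ((redSum (none : Option (Fin (m + 1))) : ℤ) : ZMod (m + 2)) = -1 := by
    linear_combination (-1 : ZMod (m + 2)) * h3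
  rw [h7]
  obtain ⟨r, hr⟩ := hev
  have h8 : (m + 1 + 1) * (m + 1) / 2 = r * (m + 2) := by
    have : (m + 1 + 1) * (m + 1) = 2 * (r * (m + 2)) := by
      rw [hr]
      have : m + 2 = 2 * r + 1 := by omega
      rw [this]
      have : r + r + 1 = 2 * r + 1 := by ring
      rw [this]
      ring
    rw [this, Nat.mul_div_cancel_left _ (by norm_num)]
  have h9 : (m + 2 + 1) / 2 = r + 1 := by omega
  rw [h8, h9]
  have h10 : ((-1 : ZMod (m + 2)) ^ (r * (m + 2))) = (-1) ^ r := by
    rw [mul_comm, pow_mul]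
    have : Odd (m + 2) := ⟨r, by omega⟩
    rw [this.neg_one_pow]
  rw [h10, pow_succ]

end Glynn

end Pool.Agent.Helper75.LatinD
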