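import Mathlib

set_option autoImplicit false

namespace Pool.Agent.Helper75.WormaldCore

/-- Neighbour table of the piece: `none` is the centre. -/
def nbl : Fin 11 → Fin 3 → Option (Fin 11) :=
  ![![none, some 1, some 2], ![some 0, some 3, some 4], ![some 0, some 3, some 4],
    ![some 1, some 2, some 5], ![some 1, some 2, some 6], ![some 3, some 7, some 8],
    ![some 4, some 9, some 10], ![some 5, some 9, some 10], ![some 5, some 9, some 10],
    ![some 6, some 7, some 8], ![some 6, some 7, some 8]]

/-- Relative colour of an optional vertex: the centre has relative colour `true`. -/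
def val (r : Fin 11 → Bool) : Option (Fin 11) → Bool
  | none => true
  | some w => r w

/-- Number of neighbours of equal colour. -/
def md (r : Fin 11 → Bool) (v : Fin 11) : ℕ :=
  (if val r (nbl v 0) = r v then 1 else 0) + (if val r (nbl v 1) = r v then 1 else 0) +
    (if val r (nbl v 2) = r v then 1 else 0)

/-- Explicit sum over eleven indices. -/
def sum11 (f : Fin 11 → ℕ) : ℕ :=
  f 0 + (f 1 + (f 2 + (f 3 + (f 4 + (f 5 + (f 6 + (f 7 + (f 8 + (f 9 + f 10)))))))))

lemma sum11_eq (f : Fin 11 → ℕ) : ∑ v : Fin 11, f v = sum11 f := by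
  unfold sum11
  rw [Fin.sum_univ_succ, Fin.sum_univ_succ, Fin.sum_univ_succ, Fin.sum_univ_succ,
    Fin.sum_univ_succ, Fin.sum_univ_succ, Fin.sum_univ_succ, Fin.sum_univ_succ,
    Fin.sum_univ_succ, Fin.sum_univ_succ, Fin.sum_univ_succ]
  rfl

/-- Degree sum of differently coloured neighbours over a set. -/
def DD (r S : Fin 11 → Bool) : ℕ := sum11 (fun v => if S v = true then 3 - md r v else 0)

/-- Cardinality. -/
def NN (S : Fin 11 → Bool) : ℕ := sum11 (fun v => if S v = true then 1 else 0)

/-- The deficiency condition. -/
def defOK (r S : Fin 11 → Bool) : Prop := DD r S = 2 * NN S ∨ DD r S + 2 = 2 * NN S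

instance (r S : Fin 11 → Bool) : Decidable (defOK r S) := by unfold defOK; infer_instance

/-- Adjacency masks of the piece. -/
def masks : List ℕ := [6, 25, 25, 38, 70, 392, 1552, 1568, 1568, 448, 448]

/-- One sweep of the closure computation on bit masks. -/
def sweep (x : ℕ) : List ℕ → ℕ → ℕ → ℕ
  | [], _, acc => acc
  | m :: ms, i, acc =>
    sweep x ms (i + 1)
      (if Nat.testBit acc i then
        acc ||| (m &&& (if Nat.testBit x i then 2047 ^^^ x else x)) else acc)

/-- Iterated closure. -/
def clos (x : ℕ) : ℕ → ℕ → ℕ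
  | 0, t => t
  | n + 1, t => clos x n (sweep x masks 0 t)

/-- Membership function of a mask. -/
def mem (t : ℕ) (v : Fin 11) : Bool := Nat.testBit t v.val

/-- Closedness under differently coloured neighbours inside the piece. -/
def closedB (r S : Fin 11 → Bool) : Prop :=
  ∀ v : Fin 11, S v = true → ∀ k : Fin 3, ∀ w : Fin 11, nbl v k = some w → r w ≠ r v → S w = true

/-- Boolean version for one slot. -/
def slotOK (r S : Fin 11 → Bool) (v : Fin 11) (o : Option (Fin 11)) : Bool :=
  match o with
  | none => true
  | some w => (r w == r v) || S w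

/-- Boolean version of closedness. -/
def closedC (r S : Fin 11 → Bool) : Bool :=
  decide (∀ v : Fin 11, S v = true →
    (slotOK r S v (nbl v 0) && slotOK r S v (nbl v 1) && slotOK r S v (nbl v 2)) = true)

lemma closedC_iff (r S : Fin 11 → Bool) (h : closedC r S = true) : closedB r S := by
  unfold closedC at h
  rw [decide_eq_true_eq] at h
  intro v hv k w hw hne
  have h1 := h v hv
  simp only [Bool.and_eq_true] at h1
  have h2 : slotOK r S v (nbl v k) = true := by
    fin_cases k
    · exact h1.1.1
    · exact h1.1.2
    · exact h1.2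
  rw [hw] at h2
  unfold slotOK at h2
  simp only [Bool.or_eq_true, beq_iff_eq] at h2
  rcases h2 with h2 | h2
  · exact absurd h2 hne
  · exact h2

/-- P2 vertices, with the partner inside the piece. -/
def isP2 (r : Fin 11 → Bool) (v : Fin 11) (o : Option (Fin 11)) : Bool :=
  match o with
  | none => false
  | some w => (r w == r v) && (md r w == 1)

/-- P2 predicate. -/
def P2 (r : Fin 11 → Bool) (v : Fin 11) : Bool :=
  (md r v == 1) && (isP2 r v (nbl v 0) || isP2 r v (nbl v 1) || isP2 r v (nbl v 2))

/-- Complement. -/
def cmp (S : Fin 11 → Bool) (v : Fin 11) : Bool := !(S v)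

/-- Everything. -/
def allS (_ : Fin 11) : Bool := true

/-- The list of admissible summaries. -/
def LL : List (Bool × Bool × Bool × ℕ × ℕ × ℕ) :=
  [(false, false, false, 0, 4, 13), (false, false, false, 0, 6, 11),
   (false, false, false, 4, 4, 11), (false, false, false, 4, 6, 9),
   (false, false, false, 6, 5, 13), (false, false, false, 8, 6, 11),
   (false, false, false, 10, 5, 9), (false, false, true, 0, 5, 11),
   (false, false, true, 0, 5, 13), (false, false, true, 0, 7, 9),
   (false, false, true, 2, 6, 7), (false, false, true, 2, 6, 11),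
   (false, false, true, 4, 5, 9), (false, false, true, 4, 5, 11),
   (false, true, false, 0, 6, 7), (false, true, false, 6, 5, 13),
   (false, true, true, 0, 5, 11), (false, true, true, 0, 5, 13),
   (false, true, true, 0, 7, 9), (true, false, true, 0, 5, 13),
   (true, true, true, 0, 5, 11), (true, true, true, 0, 5, 15)]

/-- The summary: (root equal to centre, root has one equal neighbour, deficiency of the closed part,
twice the cyclomatic number of the root part, number of `true`, P2 balance). -/
def summ (r T : Fin 11 → Bool) : Bool × Bool × Bool × ℕ × ℕ × ℕ :=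
  (r 0, md r 0 == 1,
   (if r 0 = true then (DD r allS + 2 == 2 * NN allS) else (DD r (cmp T) + 2 == 2 * NN (cmp T))),
   (if r 0 = true then 0 else DD r T + 1 - 2 * NN T),
   sum11 (fun v => if r v = true then 1 else 0),
   sum11 (fun v => if (P2 r v && r v) = true then 1 else 0) + 11 -
     sum11 (fun v => if (P2 r v && !(r v)) = true then 1 else 0))

/-- Boolean deficiency condition. -/
def defB (r S : Fin 11 → Bool) : Bool := (DD r S == 2 * NN S) || (DD r S + 2 == 2 * NN S)

lemma defB_of (r S : Fin 11 → Bool) (h : defOK r S) : defB r S = true := by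
  unfold defB
  rcases h with h | h <;> simp [h]

/-- The component conditions used. -/
def condB (r T U : Fin 11 → Bool) : Bool :=
  (if r 0 = true then (defB r T && defB r allS) else true) && defB r (cmp T) &&
    (if (r 0 || !(U 0)) = true then defB r U else true)

/-- All equal-colour degrees are at most two. -/
def mdB (r : Fin 11 → Bool) : Bool :=
  Nat.ble (md r 0) 2 && (Nat.ble (md r 1) 2 && (Nat.ble (md r 2) 2 && (Nat.ble (md r 3) 2 &&
  (Nat.ble (md r 4) 2 && (Nat.ble (md r 5) 2 && (Nat.ble (md r 6) 2 && (Nat.ble (md r 7) 2 &&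
  (Nat.ble (md r 8) 2 && (Nat.ble (md r 9) 2 && Nat.ble (md r 10) 2)))))))))

/-- The local check. -/
def locB (r T U : Fin 11 → Bool) : Bool :=
  if mdB r = true then
    closedC r T && closedC r (cmp T) && closedC r U && T 0 &&
      (r 0 || Nat.ble (2 * NN T) (DD r T + 1)) &&
      (if condB r T U = true then LL.contains (summ r T) else true)
  else true

/-- The local check on a mask. -/
def locX (x : ℕ) : Bool := locB (mem x) (mem (clos x 6 1)) (mem (clos x 6 128))

/-- Bounded check. -/
def allX : ℕ → ℕ → Bool
  | _, 0 => true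
  | a, n + 1 => locX (a + n) && allX a n

lemma allX_spec (a n : ℕ) (h : allX a n = true) : ∀ x, a ≤ x → x < a + n → locX x = true := by
  induction n with
  | zero => intro x h1 h2; omega
  | succ n ih =>
    unfold allX at h
    rw [Bool.and_eq_true] at h
    intro x h1 h2
    by_cases hx : x = a + n
    · rw [hx]; exact h.1
    · exact ih h.2 x h1 (by omega)

theorem all0 : allX 0 256 = true := by decide +kernel

theorem all1 : allX 256 256 = true := by decide +kernel

theorem all2 : allX 512 256 = true := by decide +kernel

theorem all3 : allX 768 256 = true := by decide +kernel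

theorem all4 : allX 1024 256 = true := by decide +kernel

theorem all5 : allX 1280 256 = true := by decide +kernel

theorem all6 : allX 1536 256 = true := by decide +kernel

theorem all7 : allX 1792 256 = true := by decide +kernel

theorem locX_all (x : ℕ) (hx : x < 2048) : locX x = true := by
  rcases Nat.lt_or_ge x 256 with h | h
  · exact allX_spec _ _ all0 x (by omega) (by omega)
  rcases Nat.lt_or_ge x 512 with h | h
  · exact allX_spec _ _ all1 x (by omega) (by omega)
  rcases Nat.lt_or_ge x 768 with h | h
  · exact allX_spec _ _ all2 x (by omega) (by omega)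
  rcases Nat.lt_or_ge x 1024 with h | h
  · exact allX_spec _ _ all3 x (by omega) (by omega)
  rcases Nat.lt_or_ge x 1280 with h | h
  · exact allX_spec _ _ all4 x (by omega) (by omega)
  rcases Nat.lt_or_ge x 1536 with h | h
  · exact allX_spec _ _ all5 x (by omega) (by omega)
  rcases Nat.lt_or_ge x 1792 with h | h
  · exact allX_spec _ _ all6 x (by omega) (by omega)
  · exact allX_spec _ _ all7 x (by omega) (by omega)

/-- Every Boolean function on `Fin 11` comes from a mask. -/
lemma exists_mask (r : Fin 11 → Bool) : ∃ x < 2048, mem x = r := by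
  refine ⟨(BitVec.ofFnLE r).toNat, (BitVec.ofFnLE r).isLt, ?_⟩
  funext v
  unfold mem
  rw [BitVec.testBit_toNat]
  simp

/-- The local statement: for every relative colouring with equal-colour degrees at most two there
are sets `T` and `U` with the stated properties. -/
theorem local_all (r : Fin 11 → Bool) (hmd : ∀ v, md r v ≤ 2) :
    ∃ T U : Fin 11 → Bool, closedB r T ∧ closedB r (cmp T) ∧ closedB r U ∧ T 0 = true ∧
      (r 0 = false → 2 * NN T ≤ DD r T + 1) ∧
      ((r 0 = true → defOK r T ∧ defOK r allS) → defOK r (cmp T) →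
        ((r 0 = true ∨ U 0 = false) → defOK r U) → summ r T ∈ LL) := by
  obtain ⟨x, hx, rfl⟩ := exists_mask r
  have h := locX_all x hx
  unfold locX locB at h
  have h1 : mdB (mem x) = true := by
    unfold mdB
    simp only [Bool.and_eq_true, Nat.ble_eq]
    exact ⟨hmd _, hmd _, hmd _, hmd _, hmd _, hmd _, hmd _, hmd _, hmd _, hmd _, hmd _⟩
  rw [if_pos h1] at h
  simp only [Bool.and_eq_true] at h
  obtain ⟨⟨⟨⟨⟨h2, h3⟩, h4⟩, h5⟩, h6⟩, h7⟩ := h
  refine ⟨mem (clos x 6 1), mem (clos x 6 128), closedC_iff _ _ h2, closedC_iff _ _ h3,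
    closedC_iff _ _ h4, h5, ?_, ?_⟩
  · intro h8
    rw [h8, Bool.false_or, Nat.ble_eq] at h6
    exact h6
  · intro h8 h9 h10
    have h11 : condB (mem x) (mem (clos x 6 1)) (mem (clos x 6 128)) = true := by
      unfold condB
      simp only [Bool.and_eq_true]
      refine ⟨⟨?_, defB_of _ _ h9⟩, ?_⟩
      · split_ifs with h12
        · rw [Bool.and_eq_true]
          exact ⟨defB_of _ _ (h8 h12).1, defB_of _ _ (h8 h12).2⟩
        · rfl
      · split_ifs with h12
        · apply defB_of
          apply h10
          rw [Bool.or_eq_true] at h12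
          rcases h12 with h12 | h12
          · exact Or.inl h12
          · right
            simpa using h12
        · rfl
    rw [if_pos h11] at h7
    simpa using h7

/-- The final condition on three summaries. -/
def badT (t1 t2 t3 : Bool × Bool × Bool × ℕ × ℕ × ℕ) : Bool :=
  let b : Bool → ℕ := fun c => if c = true then 1 else 0
  let m := b t1.1 + b t2.1 + b t3.1
  let cc := t1.2.2.2.1 + t2.2.2.2.1 + t3.2.2.2.1
  Nat.ble m 2 &&
  (t1.2.2.2.2.1 + t2.2.2.2.2.1 + t3.2.2.2.2.1 + 1 == 17) &&
  (cc == 0 || cc == 2) &&
  (b t1.2.2.1 + b t2.2.2.1 + b t3.2.2.1 + b (cc == 0) == 1) &&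
  (t1.2.2.2.2.2 + t2.2.2.2.2.2 + t3.2.2.2.2.2 +
    (if (m == 1 && ((t1.1 && t1.2.1) || (t2.1 && t2.2.1) || (t3.1 && t3.2.1))) = true then 2 else 0)
      == 33)

theorem no_bad : (LL.all fun t1 => LL.all fun t2 => LL.all fun t3 => !(badT t1 t2 t3)) = true := by
  decide +kernel


end Pool.Agent.Helper75.WormaldCore
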