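import Mathlib
import Pool.Agent.Helper75.WormaldCore

set_option autoImplicit false

namespace Pool.Agent.Helper75.WormaldGlue

open Pool.Agent.Helper75.WormaldCore

/-- Vertex type: the centre and three copies of the piece. -/
abbrev VV := Option (Fin 3 × Fin 11)

/-- The three neighbours of each vertex. -/
def nb : VV → Fin 3 → VV
  | none, k => some (k, 0)
  | some (i, v), k => (nbl v k).map (fun w => (i, w))

/-- Equal-colour degree. -/
def MD (c : VV → Bool) (v : VV) : ℕ :=
  (if c (nb v 0) = c v then 1 else 0) + (if c (nb v 1) = c v then 1 else 0) +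
    (if c (nb v 2) = c v then 1 else 0)

/-- Vertices of equal-colour degree one whose partner has equal-colour degree one. -/
def PP (c : VV → Bool) (v : VV) : Prop := MD c v = 1 ∧ ∃ k, c (nb v k) = c v ∧ MD c (nb v k) = 1

instance (c : VV → Bool) (v : VV) : Decidable (PP c v) := by unfold PP; infer_instance

/-- Closed sets. -/
def Cl (c S : VV → Bool) : Prop := ∀ v k, S v = true → c (nb v k) ≠ c v → S (nb v k) = true

/-- Relative colouring of a copy. -/
def rel (c : VV → Bool) (i : Fin 3) (v : Fin 11) : Bool := c (some (i, v)) == c none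

lemma val_rel (c : VV → Bool) (i : Fin 3) (o : Option (Fin 11)) :
    val (rel c i) o = (c (o.map (fun w => (i, w))) == c none) := by
  cases o <;> simp [val, rel]

lemma val_eq_iff (c : VV → Bool) (i : Fin 3) (v : Fin 11) (k : Fin 3) :
    (val (rel c i) (nbl v k) = rel c i v) ↔ c (nb (some (i, v)) k) = c (some (i, v)) := by
  rw [val_rel]
  unfold rel nb
  cases c (Option.map (fun w => (i, w)) (nbl v k)) <;> cases c (some (i, v)) <;> 
    cases c none <;> simp

lemma MD_some (c : VV → Bool) (i : Fin 3) (v : Fin 11) :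
    MD c (some (i, v)) = md (rel c i) v := by
  unfold MD md
  simp only [val_eq_iff]

lemma MD_none (c : VV → Bool) : MD c none = (if rel c 0 0 = true then 1 else 0) + 
    (if rel c 1 0 = true then 1 else 0) + (if rel c 2 0 = true then 1 else 0) := by
  unfold MD rel nb
  simp

/-- Sum over all vertices. -/
lemma sumV (f : VV → ℕ) : ∑ v : VV, f v = f none + (sum11 (fun v => f (some (0, v))) + 
    sum11 (fun v => f (some (1, v))) + sum11 (fun v => f (some (2, v)))) := by
  rw [Fintype.sum_option, Fintype.sum_prod_type, Fin.sum_univ_three, sum11_eq, sum11_eq, sum11_eq]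

/-- A set inside one copy. -/
def inCopy (i : Fin 3) (S : Fin 11 → Bool) : VV → Bool
  | none => false
  | some (j, v) => (j == i) && S v

lemma nbl_none : ∀ v k, nbl v k = none → v = 0 := by decide

lemma inCopy_closed (c : VV → Bool) (i : Fin 3) (S : Fin 11 → Bool) 
    (h : closedB (rel c i) S) (h0 : S 0 = true → rel c i 0 = true) : Cl c (inCopy i S) := by
  intro v k hv hne
  cases v with
  | none => simp [inCopy] at hv
  | some p =>
    obtain ⟨j, v⟩ := p
    simp only [inCopy, Bool.and_eq_true, beq_iff_eq] at hv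
    obtain ⟨rfl, hv⟩ := hv
    have hne' : ¬ (val (rel c j) (nbl v k) = rel c j v) := by
      rw [val_eq_iff]; exact hne
    cases hk : nbl v k with
    | none =>
      exfalso
      have hv0 : v = 0 := nbl_none v k hk
      subst hv0
      rw [hk] at hne'
      apply hne'
      rw [h0 hv]
      rfl
    | some w =>
      rw [hk] at hne'
      have := h v hv k w hk (by simpa [val] using hne')
      simp only [nb, hk, Option.map_some, inCopy, beq_self_eq_true, Bool.true_and]
      exact this

/-- Degree sum of a set. -/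
def DS (c S : VV → Bool) : ℕ := ∑ v : VV, if S v = true then 3 - MD c v else 0

/-- Cardinality of a set. -/
def NS (S : VV → Bool) : ℕ := ∑ v : VV, if S v = true then 1 else 0

lemma sum11_zero : sum11 (fun _ => 0) = 0 := by decide

lemma inCopy_eq (i j : Fin 3) (S : Fin 11 → Bool) (v : Fin 11) : 
    inCopy i S (some (j, v)) = ((j == i) && S v) := rfl

lemma DS_inCopy (c : VV → Bool) (i : Fin 3) (S : Fin 11 → Bool) :
    DS c (inCopy i S) = DD (rel c i) S := by
  unfold DS
  rw [sumV]
  simp only [inCopy_eq, MD_some]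
  fin_cases i <;> simp [inCopy, DD, sum11_zero]

lemma NS_inCopy (i : Fin 3) (S : Fin 11 → Bool) :
    NS (inCopy i S) = NN S := by
  unfold NS
  rw [sumV]
  simp only [inCopy_eq]
  fin_cases i <;> simp [inCopy, NN, sum11_zero]

/-- The component of the centre: the centre and the sets `T i` for the copies whose root has
the other colour. -/
def ctr (c : VV → Bool) (T : Fin 3 → Fin 11 → Bool) : VV → Bool
  | none => true
  | some (i, v) => !(rel c i 0) && T i v

lemma ctr_closed (c : VV → Bool) (T : Fin 3 → Fin 11 → Bool) 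
    (h : ∀ i, closedB (rel c i) (T i)) (h0 : ∀ i, T i 0 = true) : Cl c (ctr c T) := by
  intro v k hv hne
  cases v with
  | none =>
    have h1 : nb none k = some (k, 0) := rfl
    rw [h1] at hne ⊢
    simp only [ctr, h0, Bool.and_true, Bool.not_eq_true']
    unfold rel
    simpa using hne
  | some p =>
    obtain ⟨i, v⟩ := p
    simp only [ctr, Bool.and_eq_true, Bool.not_eq_true'] at hv
    have hne' : ¬ (val (rel c i) (nbl v k) = rel c i v) := by
      rw [val_eq_iff]; exact hne
    cases hk : nbl v k with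
    | none => 
      simp [nb, hk, ctr]
    | some w =>
      rw [hk] at hne'
      have := h i v hv.2 k w hk (by simpa [val] using hne')
      simp only [nb, hk, Option.map_some, ctr, this, Bool.and_true, Bool.not_eq_true']
      exact hv.1

/-- Indicator. -/
def bb (b : Bool) : ℕ := if b = true then 1 else 0

lemma DS_ctr (c : VV → Bool) (T : Fin 3 → Fin 11 → Bool) :
    DS c (ctr c T) = (3 - MD c none) + ((if rel c 0 0 = true then 0 else DD (rel c 0) (T 0)) + 
      (if rel c 1 0 = true then 0 else DD (rel c 1) (T 1)) + 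
      (if rel c 2 0 = true then 0 else DD (rel c 2) (T 2))) := by
  unfold DS
  rw [sumV]
  simp only [MD_some, ctr, if_true]
  congr 1
  congr 1
  congr 1
  all_goals
    split_ifs with h
    · simp [h, sum11_zero]
    · rw [Bool.not_eq_true] at h
      simp [h, DD]

lemma NS_ctr (c : VV → Bool) (T : Fin 3 → Fin 11 → Bool) :
    NS (ctr c T) = 1 + ((if rel c 0 0 = true then 0 else NN (T 0)) + 
      (if rel c 1 0 = true then 0 else NN (T 1)) + 
      (if rel c 2 0 = true then 0 else NN (T 2))) := by
  unfold NS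
  rw [sumV]
  simp only [ctr, if_true]
  congr 1
  congr 1
  congr 1
  all_goals
    split_ifs with h
    · simp [h, sum11_zero]
    · rw [Bool.not_eq_true] at h
      simp [h, NN]

lemma exists3 (p : Fin 3 → Prop) : (∃ k, p k) ↔ (p 0 ∨ p 1 ∨ p 2) := by
  constructor
  · rintro ⟨k, hk⟩
    fin_cases k
    · exact Or.inl hk
    · exact Or.inr (Or.inl hk)
    · exact Or.inr (Or.inr hk)
  · rintro (h | h | h)
    · exact ⟨0, h⟩
    · exact ⟨1, h⟩
    · exact ⟨2, h⟩

lemma slot_iff (c : VV → Bool) (i : Fin 3) (v : Fin 11) (k : Fin 3) (w : Fin 11)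
    (hk : nbl v k = some w) :
    (c (nb (some (i, v)) k) = c (some (i, v)) ∧ MD c (nb (some (i, v)) k) = 1) ↔
      isP2 (rel c i) v (nbl v k) = true := by
  rw [← val_eq_iff]
  have h1 : nb (some (i, v)) k = some (i, w) := by simp [nb, hk]
  rw [h1, MD_some, hk]
  simp [isP2, val]

lemma nbl_some : ∀ v k, v ≠ 0 → ∃ w, nbl v k = some w := by decide

lemma PP_iff (c : VV → Bool) (i : Fin 3) (v : Fin 11) (hv : v ≠ 0) :
    PP c (some (i, v)) ↔ P2 (rel c i) v = true := by
  unfold PP P2
  rw [exists3]
  obtain ⟨w0, h0⟩ := nbl_some v 0 hv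
  obtain ⟨w1, h1⟩ := nbl_some v 1 hv
  obtain ⟨w2, h2⟩ := nbl_some v 2 hv
  rw [slot_iff c i v 0 w0 h0, slot_iff c i v 1 w1 h1, slot_iff c i v 2 w2 h2, MD_some]
  simp only [Bool.and_eq_true, Bool.or_eq_true, beq_iff_eq, or_assoc]

lemma PP_zero (c : VV → Bool) (i : Fin 3) :
    PP c (some (i, 0)) ↔ (P2 (rel c i) 0 = true ∨ 
      (rel c i 0 = true ∧ md (rel c i) 0 = 1 ∧ MD c none = 1)) := by
  unfold PP P2
  rw [exists3]
  have h1 : nbl 0 1 = some 1 := rfl
  have h2 : nbl 0 2 = some 2 := rfl
  have h0 : nbl 0 0 = none := rfl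
  rw [slot_iff c i 0 1 1 h1, slot_iff c i 0 2 2 h2, MD_some]
  have h3 : nb (some (i, 0)) 0 = none := by simp [nb, h0]
  rw [h3, h0]
  have h4 : (c none = c (some (i, 0))) ↔ rel c i 0 = true := by
    unfold rel
    rw [beq_iff_eq]
    exact eq_comm
  rw [h4]
  simp only [Bool.and_eq_true, Bool.or_eq_true, beq_iff_eq, isP2]
  tauto

lemma P2_zero_false (c : VV → Bool) (i : Fin 3) (h : rel c i 0 = true) 
    (h1 : md (rel c i) 0 = 1) : P2 (rel c i) 0 = false := by
  have h2 : nbl 0 1 = some 1 := rfl
  have h3 : nbl 0 2 = some 2 := rfl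
  have h0 : nbl 0 0 = none := rfl
  unfold md at h1
  rw [h0, h2, h3, h] at h1
  simp only [val, if_true] at h1
  have h5 : ¬ (rel c i 1 = true) := by
    intro h6; rw [if_pos h6] at h1; omega
  have h6 : ¬ (rel c i 2 = true) := by
    intro h6; rw [if_pos h6] at h1; omega
  unfold P2
  rw [h0, h2, h3]
  simp only [isP2, h, Bool.not_eq_true] at h5 h6 ⊢
  simp [h5, h6]

lemma rel_iff (c : VV → Bool) (i : Fin 3) (v : Fin 11) : 
    (c (some (i, v)) = c none) ↔ rel c i v = true := by
  unfold rel; rw [beq_iff_eq]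

lemma cntA (c : VV → Bool) (i : Fin 3) :
    sum11 (fun v => if (PP c (some (i, v)) ∧ c (some (i, v)) = c none) then 1 else 0) =
      sum11 (fun v => if (P2 (rel c i) v && rel c i v) = true then 1 else 0) + 
      (if rel c i 0 = true ∧ md (rel c i) 0 = 1 ∧ MD c none = 1 then 1 else 0) := by
  unfold sum11
  beta_reduce
  have h : ∀ v, v ≠ 0 → (if (PP c (some (i, v)) ∧ c (some (i, v)) = c none) then 1 else 0) =
      (if (P2 (rel c i) v && rel c i v) = true then 1 else 0) := by
    intro v hv
    refine if_congr ?_ rfl rfl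
    rw [PP_iff c i v hv, rel_iff]
    simp only [Bool.and_eq_true]
  rw [h 1 (by decide), h 2 (by decide), h 3 (by decide), h 4 (by decide), h 5 (by decide),
    h 6 (by decide), h 7 (by decide), h 8 (by decide), h 9 (by decide), h 10 (by decide)]
  have h0 : (if (PP c (some (i, 0)) ∧ c (some (i, 0)) = c none) then 1 else 0) =
      (if (P2 (rel c i) 0 && rel c i 0) = true then 1 else 0) + 
      (if rel c i 0 = true ∧ md (rel c i) 0 = 1 ∧ MD c none = 1 then 1 else 0) := by
    have hP := PP_zero c i
    have hr := rel_iff c i 0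
    by_cases h1 : rel c i 0 = true ∧ md (rel c i) 0 = 1 ∧ MD c none = 1
    · rw [if_pos (⟨hP.mpr (Or.inr h1), hr.mpr h1.1⟩ : PP c (some (i, 0)) ∧ 
        c (some (i, 0)) = c none), P2_zero_false c i h1.1 h1.2.1, if_pos h1]
      simp
    · rw [if_neg h1, add_zero]
      refine if_congr ?_ rfl rfl
      rw [hP, hr]
      simp only [Bool.and_eq_true]
      tauto
  rw [h0]
  omega

lemma cntB (c : VV → Bool) (i : Fin 3) :
    sum11 (fun v => if (PP c (some (i, v)) ∧ c (some (i, v)) ≠ c none) then 1 else 0) =
      sum11 (fun v => if (P2 (rel c i) v && !(rel c i v)) = true then 1 else 0) := by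
  unfold sum11
  beta_reduce
  have h : ∀ v, (if (PP c (some (i, v)) ∧ c (some (i, v)) ≠ c none) then 1 else 0) =
      (if (P2 (rel c i) v && !(rel c i v)) = true then 1 else 0) := by
    intro v
    refine if_congr ?_ rfl rfl
    rw [ne_eq, rel_iff]
    by_cases hv : v = 0
    · subst hv
      rw [PP_zero]
      simp only [Bool.and_eq_true, Bool.not_eq_true', Bool.not_eq_true]
      constructor
      · rintro ⟨h1 | h1, h2⟩
        · exact ⟨h1, h2⟩
        · rw [h2] at h1; simp at h1
      · rintro ⟨h1, h2⟩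
        exact ⟨Or.inl h1, h2⟩
    · rw [PP_iff c i v hv]
      simp only [Bool.and_eq_true, Bool.not_eq_true', Bool.not_eq_true]
  rw [h 0, h 1, h 2, h 3, h 4, h 5, h 6, h 7, h 8, h 9, h 10]

lemma PP_none (c : VV → Bool) : PP c none ↔ MD c none = 1 ∧ 
    ((rel c 0 0 = true ∧ md (rel c 0) 0 = 1) ∨ (rel c 1 0 = true ∧ md (rel c 1) 0 = 1) ∨ 
      (rel c 2 0 = true ∧ md (rel c 2) 0 = 1)) := by
  unfold PP
  rw [exists3]
  have h : ∀ i : Fin 3, nb none i = some (i, 0) := fun i => rfl
  rw [h, h, h, MD_some, MD_some, MD_some, rel_iff, rel_iff, rel_iff]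

lemma split_DD (r T : Fin 11 → Bool) : DD r allS = DD r T + DD r (cmp T) := by
  unfold DD sum11 WormaldCore.cmp allS
  beta_reduce
  have h : ∀ v, (if true = true then 3 - md r v else 0) = (if T v = true then 3 - md r v else 0) +
      (if (!(T v)) = true then 3 - md r v else 0) := by
    intro v
    cases T v <;> simp
  rw [h 0, h 1, h 2, h 3, h 4, h 5, h 6, h 7, h 8, h 9, h 10]
  omega

lemma split_NN (T : Fin 11 → Bool) : NN T + NN (cmp T) = 11 := by
  unfold NN sum11 WormaldCore.cmp
  beta_reduce
  have h : ∀ v, (if T v = true then 1 else 0) + (if (!(T v)) = true then 1 else 0) = 1 := by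
    intro v
    cases T v <;> simp
  have := h 0
  have := h 1
  have := h 2
  have := h 3
  have := h 4
  have := h 5
  have := h 6
  have := h 7
  have := h 8
  have := h 9
  have := h 10
  omega

lemma NN_all : NN allS = 11 := by decide

lemma P_le (r : Fin 11 → Bool) : 
    sum11 (fun v => if (P2 r v && !(r v)) = true then 1 else 0) ≤ 11 := by
  have h : ∀ v, (if (P2 r v && !(r v)) = true then 1 else 0) ≤ 1 := by
    intro v; split_ifs <;> simp
  unfold sum11
  beta_reduce
  have := h 0
  have := h 1
  have := h 2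
  have := h 3
  have := h 4
  have := h 5
  have := h 6
  have := h 7
  have := h 8
  have := h 9
  have := h 10
  omega

end Pool.Agent.Helper75.WormaldGlue
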