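import Mathlib
import Pool.Agent.Helper75.WormaldCore
import Pool.Agent.Helper75.WormaldGlue

set_option autoImplicit false

namespace Pool.Agent.Helper75.WormaldMain

open Pool.Agent.Helper75.WormaldCore Pool.Agent.Helper75.WormaldGlue

lemma all_closed (r : Fin 11 → Bool) : closedB r allS := fun _ _ _ _ _ _ => rfl

/-- Per-copy summary. -/
lemma copy_summ (c : VV → Bool) (H1 : ∀ v, MD c v ≤ 2)
    (H3 : ∀ S, Cl c S → DS c S = 2 * NS S ∨ DS c S + 2 = 2 * NS S) (i : Fin 3) :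
    ∃ T : Fin 11 → Bool, closedB (rel c i) T ∧ T 0 = true ∧
      (rel c i 0 = false → 2 * NN T ≤ DD (rel c i) T + 1) ∧
      defOK (rel c i) (WormaldCore.cmp T) ∧
      (rel c i 0 = true → defOK (rel c i) allS) ∧
      summ (rel c i) T ∈ LL := by
  have hmd : ∀ v, md (rel c i) v ≤ 2 := by
    intro v
    rw [← MD_some]
    exact H1 _
  obtain ⟨T, U, h1, h2, h3, h4, h5, h6⟩ := local_all (rel c i) hmd
  have key : ∀ S : Fin 11 → Bool, closedB (rel c i) S → (S 0 = true → rel c i 0 = true) →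
      defOK (rel c i) S := by
    intro S hS h0
    have := H3 _ (inCopy_closed c i S hS h0)
    rw [DS_inCopy, NS_inCopy] at this
    exact this
  have hR : defOK (rel c i) (WormaldCore.cmp T) := by
    apply key _ h2
    intro h
    simp [WormaldCore.cmp, h4] at h
  refine ⟨T, h1, h4, h5, hR, fun h => key _ (all_closed _) (fun _ => h), ?_⟩
  apply h6 _ hR
  · intro h
    apply key _ h3
    intro hU
    rcases h with h | h
    · exact h
    · rw [hU] at h; simp at h
  · intro h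
    exact ⟨key _ h1 (fun _ => h), key _ (all_closed _) (fun _ => h)⟩

lemma DS_univ (c : VV → Bool) : DS c (fun _ => true) = (3 - MD c none) +
    (DD (rel c 0) allS + DD (rel c 1) allS + DD (rel c 2) allS) := by
  unfold DS
  rw [sumV]
  simp only [MD_some, if_true]
  rfl

lemma NS_univ : NS (fun _ => true) = 34 := by
  unfold NS
  rw [sumV]
  decide

/-- The final arithmetic. -/
lemma final (s0 s1 s2 : Bool) (M0 M1 M2 DT0 DT1 DT2 DR0 DR1 DR2 DA0 DA1 DA2 NT0 NT1 NT2
    NR0 NR1 NR2 A0 A1 A2 B0 B1 B2 C0 C1 C2 : ℕ) (Q : Prop) [Decidable Q]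
    (hm : (((if s0 = true then 1 else 0) + if s1 = true then 1 else 0) +
      if s2 = true then 1 else 0) ≤ 2)
    (hPn : Q ↔ (((if s0 = true then 1 else 0) + if s1 = true then 1 else 0) +
      if s2 = true then 1 else 0) = 1 ∧
      (s0 = true ∧ M0 = 1 ∨ s1 = true ∧ M1 = 1 ∨ s2 = true ∧ M2 = 1))
    (a5 : s0 = true → DA0 = 2 * 11 ∨ DA0 + 2 = 2 * 11)
    (b5 : s1 = true → DA1 = 2 * 11 ∨ DA1 + 2 = 2 * 11)
    (c5 : s2 = true → DA2 = 2 * 11 ∨ DA2 + 2 = 2 * 11)
    (H3' : 3 - (((if s0 = true then 1 else 0) + if s1 = true then 1 else 0) +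
      if s2 = true then 1 else 0) + (DA0 + DA1 + DA2) + 2 = 2 * 34)
    (e0 : DA0 = DT0 + DR0) (e1 : DA1 = DT1 + DR1) (e2 : DA2 = DT2 + DR2)
    (a4 : DR0 = 2 * NR0 ∨ DR0 + 2 = 2 * NR0)
    (b4 : DR1 = 2 * NR1 ∨ DR1 + 2 = 2 * NR1)
    (c4 : DR2 = 2 * NR2 ∨ DR2 + 2 = 2 * NR2)
    (a3 : s0 = false → 2 * NT0 ≤ DT0 + 1)
    (b3 : s1 = false → 2 * NT1 ≤ DT1 + 1)
    (c3 : s2 = false → 2 * NT2 ≤ DT2 + 1)
    (n0 : NT0 + NR0 = 11) (n1 : NT1 + NR1 = 11) (n2 : NT2 + NR2 = 11)
    (hC : 3 - (((if s0 = true then 1 else 0) + if s1 = true then 1 else 0) +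
      if s2 = true then 1 else 0) +
        (((if s0 = true then 0 else DT0) + if s1 = true then 0 else DT1) +
          if s2 = true then 0 else DT2) =
      2 * (1 + (((if s0 = true then 0 else NT0) + if s1 = true then 0 else NT1) +
        if s2 = true then 0 else NT2)) ∨
      3 - (((if s0 = true then 1 else 0) + if s1 = true then 1 else 0) +
      if s2 = true then 1 else 0) +
        (((if s0 = true then 0 else DT0) + if s1 = true then 0 else DT1) +
          if s2 = true then 0 else DT2) + 2 =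
      2 * (1 + (((if s0 = true then 0 else NT0) + if s1 = true then 0 else NT1) +
        if s2 = true then 0 else NT2)))
    (H4 : 2 * (1 + (A0 + A1 + A2)) = 34)
    (p0 : C0 ≤ 11) (p1 : C1 ≤ 11) (p2 : C2 ≤ 11)
    (H5 : (if Q then 1 else 0) +
      ((B0 + if s0 = true ∧ M0 = 1 ∧ (((if s0 = true then 1 else 0) +
        if s1 = true then 1 else 0) + if s2 = true then 1 else 0) = 1 then 1 else 0) +
      (B1 + if s1 = true ∧ M1 = 1 ∧ (((if s0 = true then 1 else 0) +
        if s1 = true then 1 else 0) + if s2 = true then 1 else 0) = 1 then 1 else 0) +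
      (B2 + if s2 = true ∧ M2 = 1 ∧ (((if s0 = true then 1 else 0) +
        if s1 = true then 1 else 0) + if s2 = true then 1 else 0) = 1 then 1 else 0)) =
      (C0 + C1 + C2)) :
    badT (s0, M0 == 1, (if s0 = true then (DA0 + 2 == 2 * 11) else (DR0 + 2 == 2 * NR0)),
        (if s0 = true then 0 else DT0 + 1 - 2 * NT0), A0, B0 + 11 - C0)
      (s1, M1 == 1, (if s1 = true then (DA1 + 2 == 2 * 11) else (DR1 + 2 == 2 * NR1)),
        (if s1 = true then 0 else DT1 + 1 - 2 * NT1), A1, B1 + 11 - C1)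
      (s2, M2 == 1, (if s2 = true then (DA2 + 2 == 2 * 11) else (DR2 + 2 == 2 * NR2)),
        (if s2 = true then 0 else DT2 + 1 - 2 * NT2), A2, B2 + 11 - C2) = true := by
  unfold badT
  simp only [Bool.and_eq_true, Bool.or_eq_true, beq_iff_eq, Nat.ble_eq]
  refine ⟨⟨⟨⟨hm, by omega⟩, ?_⟩, ?_⟩, ?_⟩
  · clear H5 hPn H4 p0 p1 p2
    cases s0 <;> cases s1 <;> cases s2 <;> simp at * <;> omega
  · clear H5 hPn H4 p0 p1 p2
    cases s0 <;> cases s1 <;> cases s2 <;> simp at * <;> split_ifs <;> omega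
  · clear a5 b5 c5 H3' e0 e1 e2 a4 b4 c4 a3 b3 c3 n0 n1 n2 hC H4
    have hQ : (if Q then 1 else 0) = (if ((((if s0 = true then 1 else 0) + 
        if s1 = true then 1 else 0) + if s2 = true then 1 else 0) = 1 ∧
      (s0 = true ∧ M0 = 1 ∨ s1 = true ∧ M1 = 1 ∨ s2 = true ∧ M2 = 1)) then 1 else 0) := 
      if_congr hPn rfl rfl
    rw [hQ] at H5
    clear hQ hPn
    cases s0 <;> cases s1 <;> cases s2 <;> simp at * <;> (try split_ifs at *) <;> omega

theorem core (c : VV → Bool) (H1 : ∀ v, MD c v ≤ 2)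
    (H3 : ∀ S, Cl c S → DS c S = 2 * NS S ∨ DS c S + 2 = 2 * NS S)
    (H3' : DS c (fun _ => true) + 2 = 2 * NS (fun _ => true))
    (H4 : 2 * (∑ v : VV, if c v = c none then 1 else 0) = 34)
    (H5 : (∑ v : VV, if (PP c v ∧ c v = c none) then 1 else 0) =
      ∑ v : VV, if (PP c v ∧ c v ≠ c none) then 1 else 0) : False := by
  obtain ⟨T0, a1, a2, a3, a4, a5, a6⟩ := copy_summ c H1 H3 0
  obtain ⟨T1, b1, b2, b3, b4, b5, b6⟩ := copy_summ c H1 H3 1
  obtain ⟨T2, c1, c2, c3, c4, c5, c6⟩ := copy_summ c H1 H3 2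
  have hbad := no_bad
  rw [List.all_eq_true] at hbad
  have hbad := hbad _ a6
  rw [List.all_eq_true] at hbad
  have hbad := hbad _ b6
  rw [List.all_eq_true] at hbad
  have hbad := hbad _ c6
  rw [Bool.not_eq_true'] at hbad
  -- the closed set of the centre
  have hC := H3 _ (ctr_closed c ![T0, T1, T2]
    (by intro i; fin_cases i; exacts [a1, b1, c1]) (by intro i; fin_cases i; exacts [a2, b2, c2]))
  rw [DS_ctr, NS_ctr] at hC
  simp only [Matrix.cons_val_zero, Matrix.cons_val_one, Matrix.cons_val] at hC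
  rw [DS_univ, NS_univ] at H3'
  have hm := H1 none
  rw [MD_none] at hm hC H3'
  rw [sumV] at H4
  simp only [rel_iff, if_true] at H4
  have e0 := split_DD (rel c 0) T0
  have e1 := split_DD (rel c 1) T1
  have e2 := split_DD (rel c 2) T2
  have n0 := split_NN T0
  have n1 := split_NN T1
  have n2 := split_NN T2
  have p0 := P_le (rel c 0)
  have p1 := P_le (rel c 1)
  have p2 := P_le (rel c 2)
  rw [sumV, sumV, cntA, cntA, cntA, cntB, cntB, cntB] at H5
  have hPn := PP_none c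
  rw [MD_none] at hPn H5
  unfold defOK at a4 b4 c4 a5 b5 c5
  rw [NN_all] at a5 b5 c5
  have h7 : (if PP c none ∧ c none ≠ c none then 1 else 0) = 0 := by
    rw [if_neg]; rintro ⟨_, h⟩; exact h rfl
  rw [h7, Nat.zero_add] at H5
  have h8 : (if PP c none ∧ c none = c none then 1 else 0) = (if PP c none then 1 else 0) := by
    refine if_congr ?_ rfl rfl
    simp
  rw [h8] at H5
  have hf := final (rel c 0 0) (rel c 1 0) (rel c 2 0) _ _ _ _ _ _ _ _ _ _ _ _ _ _ _ _ _ _ _ _ _ 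
    _ _ _ _ _ _ (PP c none) hm hPn a5 b5 c5 H3' e0 e1 e2 a4 b4 c4 a3 b3 c3 n0 n1 n2 hC H4 
    p0 p1 p2 H5
  unfold summ at hbad
  rw [NN_all] at hbad
  rw [hf] at hbad
  exact absurd hbad (by decide)

end Pool.Agent.Helper75.WormaldMain
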