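import Mathlib
import Pool.Agent.Helper75.WormaldMain

set_option autoImplicit false

namespace Pool.Agent.Helper75.WormaldGraph

open Pool.Agent.Helper75.WormaldCore Pool.Agent.Helper75.WormaldGlue
  Pool.Agent.Helper75.WormaldMain

/-- A linear forest: every connected component is a path (with at least one vertex). -/
def IsLinearForest {V : Type*} (G : SimpleGraph V) : Prop :=
  ∀ c : G.ConnectedComponent, ∃ n : ℕ, Nonempty (c.toSimpleGraph ≃g SimpleGraph.pathGraph (n + 1))

/-- The spanning subgraph of `G` formed by the edges with one end in `A` and one end outside. -/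
def crossGraph {V : Type*} (G : SimpleGraph V) (A : Set V) : SimpleGraph V where
  Adj u v := G.Adj u v ∧ ¬ (u ∈ A ↔ v ∈ A)
  symm := ⟨fun _ _ h => ⟨h.1.symm, fun h' => h.2 h'.symm⟩⟩
  loopless := ⟨fun _ h => h.2 Iff.rfl⟩

/-- The bisection `(A, Aᶜ)` of `G` is a strong Wormald bisection. -/
def IsStrongWormaldBisection {V : Type*} (G : SimpleGraph V) (A : Set V) : Prop :=
  A.ncard = Aᶜ.ncard ∧
  IsLinearForest (G.induce A) ∧ IsLinearForest (G.induce Aᶜ) ∧
  Nonempty (G.induce A ≃g G.induce Aᶜ) ∧
  ∃ c : (crossGraph G A).ConnectedComponent, c.toSimpleGraph.IsTree ∧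
    ∀ d : (crossGraph G A).ConnectedComponent, d ≠ c →
      d.toSimpleGraph.edgeSet.ncard = d.supp.ncard

lemma IsLinearForest.no_three {V : Type*} {G : SimpleGraph V} (h : IsLinearForest G)
    (v w1 w2 w3 : V) (h1 : G.Adj v w1) (h2 : G.Adj v w2) (h3 : G.Adj v w3)
    (h12 : w1 ≠ w2) (h13 : w1 ≠ w3) (h23 : w2 ≠ w3) : False := by
  obtain ⟨n, ⟨φ⟩⟩ := h (G.connectedComponentMk v)
  have m0 : v ∈ (G.connectedComponentMk v) := rfl
  have m1 : w1 ∈ (G.connectedComponentMk v) :=
    SimpleGraph.ConnectedComponent.sound h1.symm.reachable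
  have m2 : w2 ∈ (G.connectedComponentMk v) :=
    SimpleGraph.ConnectedComponent.sound h2.symm.reachable
  have m3 : w3 ∈ (G.connectedComponentMk v) :=
    SimpleGraph.ConnectedComponent.sound h3.symm.reachable
  have a1 : (SimpleGraph.pathGraph (n + 1)).Adj (φ ⟨v, m0⟩) (φ ⟨w1, m1⟩) := by
    rw [φ.map_adj_iff]; exact h1
  have a2 : (SimpleGraph.pathGraph (n + 1)).Adj (φ ⟨v, m0⟩) (φ ⟨w2, m2⟩) := by
    rw [φ.map_adj_iff]; exact h2
  have a3 : (SimpleGraph.pathGraph (n + 1)).Adj (φ ⟨v, m0⟩) (φ ⟨w3, m3⟩) := by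
    rw [φ.map_adj_iff]; exact h3
  rw [SimpleGraph.pathGraph_adj] at a1 a2 a3
  have key : ∀ (x y : V) (mx : x ∈ (G.connectedComponentMk v)) (my : y ∈ (G.connectedComponentMk v)),
      (φ ⟨x, mx⟩).val = (φ ⟨y, my⟩).val → x = y := by
    intro x y mx my hxy
    have := φ.injective (Fin.ext hxy)
    exact congrArg (fun z => z.1) this
  have n12 : (φ ⟨w1, m1⟩).val ≠ (φ ⟨w2, m2⟩).val := fun h => h12 (key _ _ _ _ h)
  have n13 : (φ ⟨w1, m1⟩).val ≠ (φ ⟨w3, m3⟩).val := fun h => h13 (key _ _ _ _ h)
  have n23 : (φ ⟨w2, m2⟩).val ≠ (φ ⟨w3, m3⟩).val := fun h => h23 (key _ _ _ _ h)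
  omega

section Count

open Classical

variable {V : Type*} [Fintype V]

lemma comp_degree_sum (X : SimpleGraph V) (d : X.ConnectedComponent) :
    ∑ v ∈ d.supp.toFinset, X.degree v = 2 * d.toSimpleGraph.edgeSet.ncard := by
  have h1 := SimpleGraph.sum_degrees_eq_twice_card_edges d.toSimpleGraph
  have h2 : d.toSimpleGraph.edgeSet.ncard = d.toSimpleGraph.edgeFinset.card := by
    rw [Set.ncard_eq_toFinset_card']
    rfl
  rw [h2, ← h1]
  rw [Finset.sum_subtype d.supp.toFinset (p := fun x => x ∈ d.supp) (by simp)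
    (fun v => X.degree v)]
  apply Finset.sum_congr rfl
  intro v _
  have h3 : X.neighborSet v.1 ⊆ d.supp := by
    intro w hw
    have h4 : X.connectedComponentMk v.1 = d := v.2
    have h5 : X.Adj v.1 w := hw
    change X.connectedComponentMk w = d
    rw [← h4]
    exact SimpleGraph.ConnectedComponent.sound h5.symm.reachable
  have h6 := SimpleGraph.degree_induce_of_neighborSet_subset (G := X) (v := v) h3
  rw [← h6, ← SimpleGraph.card_neighborSet_eq_degree, ← SimpleGraph.card_neighborSet_eq_degree]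
  exact Fintype.card_congr (Equiv.refl _)

lemma supp_subset (X : SimpleGraph V) (S : Finset V) (hS : ∀ u ∈ S, ∀ w, X.Adj u w → w ∈ S)
    (u : V) (hu : u ∈ S) (w : V) (h : X.Reachable u w) : w ∈ S := by
  obtain ⟨p⟩ := h
  induction p with
  | nil => exact hu
  | cons hadj p ih => exact ih (hS _ hu _ hadj)

/-- Degree sums over closed sets. -/
lemma closed_count (X : SimpleGraph V) (c0 : X.ConnectedComponent)
    (htree : c0.toSimpleGraph.IsTree)
    (hoth : ∀ d : X.ConnectedComponent, d ≠ c0 →
      d.toSimpleGraph.edgeSet.ncard = d.supp.ncard)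
    (S : Finset V) (hS : ∀ u ∈ S, ∀ w, X.Adj u w → w ∈ S) :
    ∑ v ∈ S, X.degree v + (if c0.supp ⊆ (S : Set V) then 2 else 0) = 2 * S.card := by
  haveI : Fintype X.ConnectedComponent := Fintype.ofFinite _
  have hcard : S.card = ∑ d : X.ConnectedComponent,
      (S.filter (fun v => X.connectedComponentMk v = d)).card := by
    rw [Finset.card_eq_sum_card_fiberwise (f := X.connectedComponentMk) (t := Finset.univ)]
    intro x _
    exact Finset.mem_coe.mpr (Finset.mem_univ _)
  rw [hcard, ← Finset.sum_fiberwise S X.connectedComponentMk, Finset.mul_sum]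
  have hif : (if c0.supp ⊆ (S : Set V) then 2 else 0) =
      ∑ d : X.ConnectedComponent, (if (d = c0 ∧ d.supp ⊆ (S : Set V)) then 2 else 0) := by
    rw [Finset.sum_eq_single c0]
    · simp
    · intro d _ hd
      rw [if_neg]
      exact fun h => hd h.1
    · intro h
      exact absurd (Finset.mem_univ _) h
  rw [hif, ← Finset.sum_add_distrib]
  apply Finset.sum_congr rfl
  intro d _
  by_cases hd : d.supp ⊆ (S : Set V)
  · have hfil : S.filter (fun v => X.connectedComponentMk v = d) = d.supp.toFinset := by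
      ext v
      simp only [Finset.mem_filter, Set.mem_toFinset]
      constructor
      · rintro ⟨_, h⟩; exact h
      · intro h; exact ⟨hd h, h⟩
    rw [hfil, comp_degree_sum]
    have hc : d.supp.toFinset.card = d.supp.ncard := by
      rw [Set.ncard_eq_toFinset_card']
    rw [hc]
    by_cases h0 : d = c0
    · rw [if_pos ⟨h0, hd⟩]
      subst h0
      have h1 := htree.card_edgeFinset
      have h2 : d.toSimpleGraph.edgeSet.ncard = d.toSimpleGraph.edgeFinset.card := by
        rw [Set.ncard_eq_toFinset_card']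
        rfl
      have h3 : Fintype.card d = d.supp.ncard := by
        rw [← Nat.card_eq_fintype_card]
        rfl
      rw [h2, ← h3, ← h1]
      ring
    · rw [if_neg (fun h => h0 h.1), hoth d h0]
      ring
  · rw [if_neg (fun h => hd h.2)]
    have hfil : S.filter (fun v => X.connectedComponentMk v = d) = ∅ := by
      rw [Finset.filter_eq_empty_iff]
      intro v hv hvd
      apply hd
      intro w hw
      have hw' : X.connectedComponentMk w = d := hw
      apply supp_subset X S hS v hv w
      rw [← hvd] at hw'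
      exact (SimpleGraph.ConnectedComponent.exact hw').symm
    rw [hfil]
    simp

end Count

end Pool.Agent.Helper75.WormaldGraph
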