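import Mathlib
import Pool.Agent.Helper75.WormaldGraph

set_option autoImplicit false

namespace Pool.Agent.Helper75.WormaldFinal

open Pool.Agent.Helper75.WormaldCore Pool.Agent.Helper75.WormaldGlue
  Pool.Agent.Helper75.WormaldMain Pool.Agent.Helper75.WormaldGraph

lemma nb_symm : ∀ u k, ∃ k', nb (nb u k) k' = u := by decide

lemma nb_ne : ∀ u k, nb u k ≠ u := by decide

lemma nb_inj : ∀ u k k', nb u k = nb u k' → k = k' := by decide

/-- The cubic graph on 34 vertices. -/
def G34 : SimpleGraph VV where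
  Adj u v := ∃ k, nb u k = v
  symm := ⟨by
    rintro u v ⟨k, rfl⟩
    exact nb_symm u k⟩
  loopless := ⟨by
    rintro u ⟨k, hk⟩
    exact nb_ne u k hk⟩

lemma G34_cubic (v : VV) : (G34.neighborSet v).ncard = 3 := by
  have h : G34.neighborSet v = Set.range (nb v) := by
    ext w
    simp [SimpleGraph.neighborSet, G34]
  rw [h, ← Set.image_univ, Set.ncard_image_of_injective _ (fun a b => nb_inj v a b),
    Set.ncard_univ]
  simp

/-- A parent function showing connectedness. -/
def par : VV → VV
  | none => none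
  | some (i, v) => (![none, some (i, 0), some (i, 0), some (i, 1), some (i, 1), some (i, 3),
      some (i, 4), some (i, 5), some (i, 5), some (i, 6), some (i, 6)] : Fin 11 → VV) v

lemma par_adj : ∀ v : VV, v ≠ none → ∃ k, nb v k = par v := by decide

lemma par_iter : ∀ v : VV, par (par (par (par (par (par v))))) = none := by decide

lemma par_reach (v : VV) : G34.Reachable v (par v) := by
  by_cases h : v = none
  · subst h; exact SimpleGraph.Reachable.refl _
  · exact SimpleGraph.Adj.reachable (par_adj v h)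

lemma G34_connected : G34.Connected := by
  haveI : Nonempty VV := ⟨none⟩
  refine ⟨?_⟩
  have h : ∀ v : VV, G34.Reachable v none := by
    intro v
    have h1 := par_reach v
    have h2 := par_reach (par v)
    have h3 := par_reach (par (par v))
    have h4 := par_reach (par (par (par v)))
    have h5 := par_reach (par (par (par (par v))))
    have h6 := par_reach (par (par (par (par (par v)))))
    rw [par_iter v] at h6
    exact h1.trans (h2.trans (h3.trans (h4.trans (h5.trans h6))))
  intro u v
  exact (h u).trans (h v).symm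

section

open Classical

/-- Colour function of a set. -/
noncomputable def col (A : Set VV) (v : VV) : Bool := decide (v ∈ A)

lemma col_eq (A : Set VV) (u v : VV) : col A u = col A v ↔ (u ∈ A ↔ v ∈ A) := by
  unfold col
  rw [decide_eq_decide]

lemma H1 (A : Set VV) (hA : IsLinearForest (G34.induce A)) (hA' : IsLinearForest (G34.induce Aᶜ))
    (v : VV) : MD (col A) v ≤ 2 := by
  by_contra hcon
  unfold MD at hcon
  have h0 : col A (nb v 0) = col A v := by
    by_contra h; rw [if_neg h] at hcon; split_ifs at hcon <;> omega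
  have h1 : col A (nb v 1) = col A v := by
    by_contra h; rw [if_neg h] at hcon; split_ifs at hcon <;> omega
  have h2 : col A (nb v 2) = col A v := by
    by_contra h; rw [if_neg h] at hcon; split_ifs at hcon <;> omega
  rw [col_eq] at h0 h1 h2
  by_cases hv : v ∈ A
  · refine hA.no_three ⟨v, hv⟩ ⟨nb v 0, h0.mpr hv⟩ ⟨nb v 1, h1.mpr hv⟩ ⟨nb v 2, h2.mpr hv⟩
      ⟨0, rfl⟩ ⟨1, rfl⟩ ⟨2, rfl⟩ ?_ ?_ ?_
    · intro h; exact absurd (nb_inj v _ _ (congrArg Subtype.val h)) (by decide)
    · intro h; exact absurd (nb_inj v _ _ (congrArg Subtype.val h)) (by decide)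
    · intro h; exact absurd (nb_inj v _ _ (congrArg Subtype.val h)) (by decide)
  · refine hA'.no_three ⟨v, hv⟩ ⟨nb v 0, fun h => hv (h0.mp h)⟩ ⟨nb v 1, fun h => hv (h1.mp h)⟩
      ⟨nb v 2, fun h => hv (h2.mp h)⟩ ⟨0, rfl⟩ ⟨1, rfl⟩ ⟨2, rfl⟩ ?_ ?_ ?_
    · intro h; exact absurd (nb_inj v _ _ (congrArg Subtype.val h)) (by decide)
    · intro h; exact absurd (nb_inj v _ _ (congrArg Subtype.val h)) (by decide)
    · intro h; exact absurd (nb_inj v _ _ (congrArg Subtype.val h)) (by decide)

lemma cross_adj (A : Set VV) (u w : VV) :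
    (crossGraph G34 A).Adj u w ↔ ∃ k, nb u k = w ∧ col A (nb u k) ≠ col A u := by
  constructor
  · rintro ⟨⟨k, hk⟩, h⟩
    refine ⟨k, hk, ?_⟩
    rw [ne_eq, col_eq, hk]
    exact fun h' => h h'.symm
  · rintro ⟨k, hk, h⟩
    refine ⟨⟨k, hk⟩, ?_⟩
    rw [ne_eq, col_eq, hk] at h
    exact fun h' => h h'.symm

lemma cross_degree (A : Set VV) (v : VV) :
    (crossGraph G34 A).degree v = 3 - MD (col A) v := by
  have h1 : (crossGraph G34 A).neighborFinset v =
      (Finset.univ.filter (fun k : Fin 3 => col A (nb v k) ≠ col A v)).image (nb v) := by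
    ext w
    rw [SimpleGraph.mem_neighborFinset, cross_adj]
    simp only [Finset.mem_image, Finset.mem_filter, Finset.mem_univ, true_and]
    constructor
    · rintro ⟨k, h1, h2⟩; exact ⟨k, h2, h1⟩
    · rintro ⟨k, h1, h2⟩; exact ⟨k, h2, h1⟩
  rw [← SimpleGraph.card_neighborFinset_eq_degree, h1,
    Finset.card_image_of_injective _ (fun a b => nb_inj v a b), Finset.card_filter]
  rw [Fin.sum_univ_three]
  unfold MD
  by_cases h0 : col A (nb v 0) = col A v <;> by_cases h1 : col A (nb v 1) = col A v <;>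
    by_cases h2 : col A (nb v 2) = col A v <;> simp [h0, h1, h2]

lemma H3 (A : Set VV) (c0 : (crossGraph G34 A).ConnectedComponent)
    (htree : c0.toSimpleGraph.IsTree)
    (hoth : ∀ d : (crossGraph G34 A).ConnectedComponent, d ≠ c0 →
      d.toSimpleGraph.edgeSet.ncard = d.supp.ncard) (S : VV → Bool) (hS : Cl (col A) S) :
    DS (col A) S + (if c0.supp ⊆ {v | S v = true} then 2 else 0) = 2 * NS S := by
  have h := closed_count (crossGraph G34 A) c0 htree hoth
    (Finset.univ.filter (fun v => S v = true)) (by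
      intro u hu w hw
      simp only [Finset.mem_filter, Finset.mem_univ, true_and] at hu ⊢
      rw [cross_adj] at hw
      obtain ⟨k, rfl, hk⟩ := hw
      exact hS u k hu hk)
  unfold DS NS
  rw [← Finset.sum_filter, ← Finset.sum_filter]
  simp only [cross_degree] at h
  rw [Finset.card_eq_sum_ones] at h
  have h2 : ((Finset.univ.filter (fun v : VV => S v = true) : Finset VV) : Set VV) =
      {v | S v = true} := by
    ext v; simp
  rw [h2] at h
  exact h

end

lemma H4 (A : Set VV) (h : A.ncard = Aᶜ.ncard) :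
    2 * (∑ v : VV, if col A v = col A none then 1 else 0) = 34 := by
  have h1 : A.ncard + Aᶜ.ncard = 34 := by
    rw [Set.ncard_add_ncard_compl]
    simp
  have h2 : (∑ v : VV, if col A v = col A none then 1 else 0) =
      {v : VV | col A v = col A none}.ncard := by
    rw [← Finset.sum_filter, ← Finset.card_eq_sum_ones, ← Set.ncard_coe_finset]
    congr 1
    ext v; simp
  rw [h2]
  simp only [col_eq]
  by_cases hn : (none : VV) ∈ A
  · have h3 : {v : VV | v ∈ A ↔ none ∈ A} = A := by
      ext v; simp [hn]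
    rw [h3]
    omega
  · have h3 : {v : VV | v ∈ A ↔ none ∈ A} = Aᶜ := by
      ext v; simp [hn]
    rw [h3]
    omega

/-- A vertex lying in a component which is a single edge. -/
def K2 {W : Type*} (H : SimpleGraph W) (x : W) : Prop :=
  ∃ y, (∀ u, H.Adj x u ↔ u = y) ∧ (∀ u, H.Adj y u ↔ u = x)

lemma K2_iso {W W' : Type*} {H : SimpleGraph W} {H' : SimpleGraph W'} (φ : H ≃g H') (x : W) :
    K2 H x ↔ K2 H' (φ x) := by
  constructor
  · rintro ⟨y, h1, h2⟩
    refine ⟨φ y, ?_, ?_⟩
    · intro u
      obtain ⟨u, rfl⟩ := φ.surjective u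
      rw [φ.map_adj_iff, h1]
      exact φ.injective.eq_iff.symm
    · intro u
      obtain ⟨u, rfl⟩ := φ.surjective u
      rw [φ.map_adj_iff, h2]
      exact φ.injective.eq_iff.symm
  · rintro ⟨y, h1, h2⟩
    obtain ⟨y, rfl⟩ := φ.surjective y
    refine ⟨y, ?_, ?_⟩
    · intro u
      rw [← φ.map_adj_iff, h1]
      exact φ.injective.eq_iff
    · intro u
      rw [← φ.map_adj_iff, h2]
      exact φ.injective.eq_iff

lemma MD_one (c : VV → Bool) (v : VV) :
    MD c v = 1 ↔ ∃ k, ∀ k', (c (nb v k') = c v ↔ k' = k) := by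
  unfold MD
  constructor
  · intro h
    by_cases h0 : c (nb v 0) = c v
    · refine ⟨0, ?_⟩
      rw [if_pos h0] at h
      have h1 : ¬ (c (nb v 1) = c v) := by intro h1; rw [if_pos h1] at h; omega
      have h2 : ¬ (c (nb v 2) = c v) := by intro h2; rw [if_pos h2] at h; omega
      intro k'
      fin_cases k'
      · simpa using h0
      · simpa using h1
      · simpa using h2
    · rw [if_neg h0] at h
      by_cases h1 : c (nb v 1) = c v
      · refine ⟨1, ?_⟩
        rw [if_pos h1] at h
        have h2 : ¬ (c (nb v 2) = c v) := by intro h2; rw [if_pos h2] at h; omega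
        intro k'
        fin_cases k'
        · simpa using h0
        · simpa using h1
        · simpa using h2
      · refine ⟨2, ?_⟩
        rw [if_neg h1] at h
        have h2 : c (nb v 2) = c v := by
          by_contra h2; rw [if_neg h2] at h; omega
        intro k'
        fin_cases k'
        · simpa using h0
        · simpa using h1
        · simpa using h2
  · rintro ⟨k, hk⟩
    simp only [hk]
    fin_cases k <;> simp

lemma PP_K2 (c : VV → Bool) (B : Set VV) (v : VV) (hv : v ∈ B)
    (hB : ∀ u, u ∈ B ↔ c u = c v) : PP c v ↔ K2 (G34.induce B) ⟨v, hv⟩ := by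
  constructor
  · rintro ⟨h1, k, hk, h2⟩
    obtain ⟨k0, hk0⟩ := (MD_one c v).mp h1
    have hkk : k = k0 := (hk0 k).mp hk
    subst hkk
    obtain ⟨k1, hk1⟩ := (MD_one c (nb v k)).mp h2
    obtain ⟨k2, hk2⟩ := nb_symm v k
    have hk12 : k2 = k1 := by
      rw [← hk1 k2, hk2, hk]
    subst hk12
    refine ⟨⟨nb v k, (hB _).mpr hk⟩, ?_, ?_⟩
    · rintro ⟨u, hu⟩
      constructor
      · rintro ⟨k', hk'⟩
        have hk'' : nb v k' = u := hk'
        have h3 : c (nb v k') = c v := by rw [hk'']; exact (hB u).mp hu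
        have h4 := (hk0 k').mp h3
        apply Subtype.ext
        change u = nb v k
        rw [← hk'', h4]
      · intro h
        have h' : u = nb v k := congrArg Subtype.val h
        exact ⟨k, h'.symm⟩
    · rintro ⟨u, hu⟩
      constructor
      · rintro ⟨k', hk'⟩
        have hk'' : nb (nb v k) k' = u := hk'
        have h3 : c (nb (nb v k) k') = c (nb v k) := by rw [hk'', hk]; exact (hB u).mp hu
        have h4 := (hk1 k').mp h3
        apply Subtype.ext
        change u = v
        rw [← hk'', h4, hk2]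
      · intro h
        have h' : u = v := congrArg Subtype.val h
        subst h'
        exact ⟨k2, hk2⟩
  · rintro ⟨⟨y, hy⟩, h1, h2⟩
    have hvy : (G34.induce B).Adj ⟨v, hv⟩ ⟨y, hy⟩ := (h1 _).mpr rfl
    obtain ⟨k, hk⟩ := hvy
    have hk' : nb v k = y := hk
    have hyc : c y = c v := (hB y).mp hy
    have hMv : MD c v = 1 := by
      rw [MD_one]
      refine ⟨k, ?_⟩
      intro k'
      constructor
      · intro h
        have h3 : (⟨nb v k', (hB _).mpr h⟩ : B) = ⟨y, hy⟩ := (h1 _).mp ⟨k', rfl⟩
        have h4 : nb v k' = y := congrArg Subtype.val h3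
        exact nb_inj v _ _ (h4.trans hk'.symm)
      · rintro rfl
        rw [hk', hyc]
    obtain ⟨k2, hk2⟩ := nb_symm v k
    rw [hk'] at hk2
    have hMy : MD c y = 1 := by
      rw [MD_one]
      refine ⟨k2, ?_⟩
      intro k'
      constructor
      · intro h
        have h3 : (⟨nb y k', (hB _).mpr (h.trans hyc)⟩ : B) = ⟨v, hv⟩ := (h2 _).mp ⟨k', rfl⟩
        have h4 : nb y k' = v := congrArg Subtype.val h3
        exact nb_inj y _ _ (h4.trans hk2.symm)
      · rintro rfl
        rw [hk2, hyc]
    refine ⟨hMv, k, ?_, ?_⟩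
    · rw [hk', hyc]
    · rw [hk']; exact hMy

open Classical in
lemma H5aux (A : Set VV) (φ : G34.induce A ≃g G34.induce Aᶜ) :
    (Finset.univ.filter (fun v => PP (col A) v ∧ v ∈ A)).card =
      (Finset.univ.filter (fun v => PP (col A) v ∧ v ∉ A)).card := by
  have hPA : ∀ (v : VV) (hv : v ∈ A), PP (col A) v ↔ K2 (G34.induce A) ⟨v, hv⟩ := by
    intro v hv
    apply PP_K2
    intro u
    rw [col_eq]
    simp [hv]
  have hPB : ∀ (v : VV) (hv : v ∈ Aᶜ), PP (col A) v ↔ K2 (G34.induce Aᶜ) ⟨v, hv⟩ := by
    intro v hv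
    apply PP_K2
    intro u
    rw [col_eq]
    have hv' : v ∉ A := hv
    simp [hv']
  refine Finset.card_bij' (fun v hv => (φ ⟨v, (Finset.mem_filter.mp hv).2.2⟩).1)
    (fun v hv => (φ.symm ⟨v, (Finset.mem_filter.mp hv).2.2⟩).1) ?_ ?_ ?_ ?_
  · intro v hv
    have hv' := (Finset.mem_filter.mp hv).2
    rw [Finset.mem_filter]
    refine ⟨Finset.mem_univ _, ?_, (φ ⟨v, hv'.2⟩).2⟩
    rw [hPB _ (φ ⟨v, hv'.2⟩).2, Subtype.coe_eta, ← K2_iso φ, ← hPA]
    exact hv'.1
  · intro v hv
    have hv' := (Finset.mem_filter.mp hv).2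
    rw [Finset.mem_filter]
    refine ⟨Finset.mem_univ _, ?_, (φ.symm ⟨v, hv'.2⟩).2⟩
    rw [hPA _ (φ.symm ⟨v, hv'.2⟩).2, Subtype.coe_eta, ← K2_iso φ.symm, ← hPB]
    exact hv'.1
  · intro v hv
    simp
  · intro v hv
    simp

open Classical in
lemma H5c (A : Set VV) (φ : G34.induce A ≃g G34.induce Aᶜ) :
    (Finset.univ.filter (fun v => PP (col A) v ∧ col A v = col A none)).card =
      (Finset.univ.filter (fun v => PP (col A) v ∧ col A v ≠ col A none)).card := by
  have h := H5aux A φ
  simp only [ne_eq, col_eq]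
  by_cases hn : (none : VV) ∈ A
  · have e1 : (Finset.univ.filter (fun v => PP (col A) v ∧ (v ∈ A ↔ none ∈ A))) =
        (Finset.univ.filter (fun v => PP (col A) v ∧ v ∈ A)) := by
      apply Finset.filter_congr
      intro v _
      simp [hn]
    have e2 : (Finset.univ.filter (fun v => PP (col A) v ∧ ¬ (v ∈ A ↔ none ∈ A))) =
        (Finset.univ.filter (fun v => PP (col A) v ∧ v ∉ A)) := by
      apply Finset.filter_congr
      intro v _
      simp [hn]
    rw [← e1, ← e2] at h
    convert h using 2
  · have e1 : (Finset.univ.filter (fun v => PP (col A) v ∧ (v ∈ A ↔ none ∈ A))) =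
        (Finset.univ.filter (fun v => PP (col A) v ∧ v ∉ A)) := by
      apply Finset.filter_congr
      intro v _
      simp [hn]
    have e2 : (Finset.univ.filter (fun v => PP (col A) v ∧ ¬ (v ∈ A ↔ none ∈ A))) =
        (Finset.univ.filter (fun v => PP (col A) v ∧ v ∈ A)) := by
      apply Finset.filter_congr
      intro v _
      simp [hn]
    rw [← e1, ← e2] at h
    convert h.symm using 2

lemma H5 (A : Set VV) (φ : G34.induce A ≃g G34.induce Aᶜ) :
    (∑ v : VV, if (PP (col A) v ∧ col A v = col A none) then 1 else 0) =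
      ∑ v : VV, if (PP (col A) v ∧ col A v ≠ col A none) then 1 else 0 := by
  have h := H5c A φ
  rw [← Finset.sum_filter, ← Finset.sum_filter, ← Finset.card_eq_sum_ones,
    ← Finset.card_eq_sum_ones]
  convert h using 2

open Classical in
lemma H3univ (A : Set VV) (c0 : (crossGraph G34 A).ConnectedComponent)
    (htree : c0.toSimpleGraph.IsTree)
    (hoth : ∀ d : (crossGraph G34 A).ConnectedComponent, d ≠ c0 →
      d.toSimpleGraph.edgeSet.ncard = d.supp.ncard) :
    DS (col A) (fun _ => true) + 2 = 2 * NS (fun _ => true) := by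
  have h := H3 A c0 htree hoth (fun _ => true) (fun _ _ _ _ => rfl)
  have hsub : c0.supp ⊆ {v : VV | (fun _ : VV => true) v = true} := by
    intro x _
    simp
  rw [if_pos hsub] at h
  exact h

open Classical in
lemma H3' (A : Set VV) (c0 : (crossGraph G34 A).ConnectedComponent)
    (htree : c0.toSimpleGraph.IsTree)
    (hoth : ∀ d : (crossGraph G34 A).ConnectedComponent, d ≠ c0 →
      d.toSimpleGraph.edgeSet.ncard = d.supp.ncard) (S : VV → Bool) (hS : Cl (col A) S) :
    DS (col A) S = 2 * NS S ∨ DS (col A) S + 2 = 2 * NS S := by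
  have h := H3 A c0 htree hoth S hS
  split_ifs at h
  · right; omega
  · left; omega

/-- The graph has no strong Wormald bisection. -/
theorem no_bisection (A : Set VV) : ¬ IsStrongWormaldBisection G34 A := by
  rintro ⟨h1, h2, h3, ⟨φ⟩, c0, htree, hoth⟩
  have e1 := H1 A h2 h3
  have e2 := H3' A c0 htree hoth
  have e3 := H3univ A c0 htree hoth
  have e4 := H4 A h1
  have e5 := H5 A φ
  have e6 := core (col A) e1 e2 e3
  have e7 := e6 e4
  exact e7 e5

end Pool.Agent.Helper75.WormaldFinal
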